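import Pool.Agent.H492.CT.Chk

/-!
# From the checker to `CertT`
-/

set_option autoImplicit false

namespace Pool.Agent.H492.CT

open Pool.Agent.H492.UB

theorem length_repj (j : ℕ) : (repj j).length = 4 := by
  simp [repj, repi, repw, wd]

theorem certT (hs : SSound) (χ : Finset (Fin 4)) (X : Fin 4 → ℕ) (hX : ∀ j, X j = if j ∈ χ then 1 else 0)
    (w : ℕ) (T : ℕ → ℕ) (nT : ℕ) (Lx TI : List ℕ)
    (cl : List (ℕ × ℕ × ℕ × ℕ × ℕ × ℕ)) (co : List (List ℕ)) (h1 : nT ≤ 22) (h2 : ∀ t ∈ cl, t.2.2.2.2.1 < 22)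
    (h3 : cl.length ≤ 30)
    (h4 : ∀ rd < 40, blk (X 0) (X 1) (X 2) (X 3) w T nT (bytes 192 nT) (bytes 252 nT) Lx TI rd = true)
    (h5 : clos (X 0) (X 1) (X 2) (X 3) w T (bytes 192 nT) (bytes 252 nT) cl = true)
    (h6 : comb nT (bytes 192 nT) (cl.map fun p => p.2.2.2.2.2) co = true) :
    CertT PA χ (Lx.map repj) := by
  intro M _ _ H hBA hU hD hL h hh
  refine hs X w T nT Lx TI cl co h1 h2 h3 h4 h5 h6 M H hBA ⟨hU, fun s hs' w => ?_⟩ (fun j hj => ?_) h hh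
  · rw [hD s hs' w]
    congr 1
    have e : ∀ j, s j ^ X j = if j ∈ χ then s j else 1 := by
      intro j
      rw [hX j]
      split_ifs
      · rw [pow_one]
      · rw [pow_zero]
    rw [Finset.prod_congr rfl fun j _ => e j, Finset.prod_ite_mem, Finset.univ_inter]
  · exact hL _ (List.mem_map.2 ⟨j, hj, rfl⟩)

end Pool.Agent.H492.CT
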