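import Pool.Agent.H492.CT.Tab
import Pool.Agent.H492.UB.Stm3

/-!
# The certificate checker in depth four modulo three

Pattern `PA = {(0,2), (0,3), (1,3), (2,3)}`. A word of four letters in `V3 = 𝔽₃⁴` is given by the codes `a b c d` of
its four columns (column `j` = the `j`-th coordinates of the four letters).

Classes: `(rd, i)`, `rd < 40`, `i = (13 r2 + r1) 4 + r0 < 676`; number `676 rd + i`. Data of a class: `en` with the
order `en % 2^15`, the number `q` of a relation (5 bits; 22: free class, 23: temporary class) and the vector `v`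
(8 bits for each coordinate).
-/

set_option autoImplicit false

namespace Pool.Agent.H492.CT

open Pool.Agent.H492.UB

noncomputable section

/-- `k n`, where `n` is evaluated first -/
def frc {α : Type} (n : ℕ) (k : ℕ → α) : α :=
  Nat.rec (motive := fun _ => α) (k 0) (fun m _ => k m) (Nat.succ n)

theorem frc_eq {α : Type} (n : ℕ) (k : ℕ → α) : frc n k = k n := rfl

/-- entry `i` of the table `t` of width `w` -/
def tab (w t i : ℕ) : ℕ := Nat.land (Nat.shiftRight t (Nat.mul w i)) (Nat.sub (Nat.pow 2 w) 1)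

/-- The class of the word with the columns `a b c d`: `k rd i s` with the sign `(-1)^s`. -/
def can {α : Type} (X0 X1 X2 X3 a b c d : ℕ) (k : ℕ → ℕ → ℕ → α) : α :=
  frc (tab 8 tN d) fun n =>
  frc (Nat.land n 63) fun rd =>
  frc (tab 5 t1 (Nat.add (Nat.mul rd 81) c)) fun e =>
  frc (Nat.land e 15) fun r2 =>
  frc (tab 5 t1 (Nat.add (Nat.mul rd 81) b)) fun f =>
  frc (tab 4 t2 (Nat.add (Nat.mul (Nat.add (Nat.mul rd 13) r2) 81) a)) fun g =>
  frc (Nat.add (Nat.mul (Nat.add (Nat.mul r2 13) (Nat.land f 15)) 4) (Nat.land g 7)) fun i =>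
  frc (Nat.mod (Nat.add (Nat.add (Nat.mul X0 (Nat.shiftRight g 3)) (Nat.mul X1 (Nat.shiftRight f 4)))
    (Nat.add (Nat.mul X2 (Nat.shiftRight e 4)) (Nat.mul X3 (Nat.shiftRight n 6)))) 2) fun s =>
  k rd i s

/-- all coordinates of the vector `acc` are divisible by three -/
def m3 (M acc : ℕ) : Bool :=
  frc (Nat.div acc 3) fun W => cond (Nat.beq (Nat.mul 3 W) acc) (Nat.beq (Nat.land W M) 0) false

/-- the sum of the second components of the pairs `(j, s)` in the list -/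
def psum (j : ℕ) (l : List (ℕ × ℕ)) : ℕ :=
  List.rec (motive := fun _ => ℕ) 0 (fun p _ ih => cond (Nat.beq p.1 j) (Nat.add p.2 ih) ih) l

/-- the terms in the list cancel -/
def chkp (pend l : List (ℕ × ℕ)) : Bool :=
  List.rec (motive := fun _ => Bool) true
    (fun p _ ih => cond (Nat.beq (Nat.mod (psum p.1 pend) 3) 0) ih false) l

/-- The relation: the terms given by the tables in `l`, applied to the columns `a b c d` of the class number `idx` with the
order `o` and the vector `v`. -/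
def oth (X0 X1 X2 X3 w : ℕ) (T : ℕ → ℕ) (M o idx v a b c d : ℕ) (l : List ℕ) :
    ℕ → ℕ → List (ℕ × ℕ) → Bool :=
  List.rec (motive := fun _ => ℕ → ℕ → List (ℕ × ℕ) → Bool)
    (fun acc net pend => cond (Nat.beq (Nat.mod net 3) 0) false
      (cond (m3 M (Nat.add acc (Nat.mul net v))) (chkp pend pend) false))
    (fun t _ ih acc net pend =>
      can X0 X1 X2 X3 (tab 7 t a) (tab 7 t b) (tab 7 t c) (tab 7 t d) fun rd i s =>
      frc (tab w (T rd) i) fun en =>
      cond (Nat.blt (Nat.land en 32767) o)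
        (frc (Nat.add acc (Nat.mul (Nat.succ s) (Nat.shiftRight en 20))) fun acc => ih acc net pend)
        (frc (Nat.add (Nat.mul rd 676) i) fun j =>
          cond (Nat.beq j idx) (frc (Nat.add net (Nat.succ s)) fun net => ih acc net pend)
            (frc (Nat.succ s) fun s' => ih acc net ((j, s') :: pend)))) l

/-- list membership -/
def mem (i : ℕ) (l : List ℕ) : Bool :=
  List.rec (motive := fun _ => Bool) false (fun x _ ih => cond (Nat.beq x i) true ih) l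

/-- the list entry -/
def nth {α : Type} (z : α) (l : List α) : ℕ → α :=
  List.rec (motive := fun _ => ℕ → α) (fun _ => z)
    (fun x _ ih n => Nat.rec (motive := fun _ => α) x (fun m _ => ih m) n) l

/-- the check of the class `(rd, r2, r1, r0)` -/
def ent (X0 X1 X2 X3 w : ℕ) (T : ℕ → ℕ) (nT M M3 : ℕ) (Lx TI : List ℕ) (rd r2 r1 r0 : ℕ) : Bool :=
  frc (tab 7 tC (Nat.add (Nat.mul rd 13) r1)) fun b =>
  frc (Nat.land (tab 4 t2 (Nat.add (Nat.mul (Nat.add (Nat.mul rd 13) r2) 81) b)) 7) fun rb =>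
  cond (Nat.beq rb 4) true <| cond (Nat.beq rb r0) true <|
  frc (Nat.add (Nat.mul (Nat.add (Nat.mul r2 13) r1) 4) r0) fun i =>
  frc (tab w (T rd) i) fun en =>
  frc (Nat.add (Nat.mul rd 676) i) fun idx =>
  frc (Nat.land en 32767) fun o =>
  frc (Nat.land (Nat.shiftRight en 15) 31) fun q =>
  frc (Nat.shiftRight en 20) fun v =>
  cond (Nat.beq q 22) (cond (Nat.beq v 0) (mem idx Lx) false) <|
  cond (Nat.beq q 23) (cond (Nat.blt o nT)
    (cond (Nat.beq v (Nat.pow 256 o)) (Nat.beq (nth 0 TI o) idx) false) false) <|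
  cond (Nat.blt q 22) (cond (Nat.beq (Nat.land v M3) 0)
    (frc (tab 7 tF (Nat.add (Nat.mul (Nat.add (Nat.mul rd 13) r2) 4) r0)) fun a =>
      frc (tab 7 tC (Nat.add (Nat.mul rd 13) r2)) fun c =>
      frc (tab 7 tD rd) fun d =>
      oth X0 X1 X2 X3 w T M o idx v a b c d (nth [] rows q) 0 1 []) false) false

/-- `f i` for all `i < n` -/
def allN (n : ℕ) (f : ℕ → Bool) : Bool :=
  Nat.rec (motive := fun _ => Bool) true (fun i ih => cond (f i) ih false) n

/-- the check of the classes with given `rd` -/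
def blk (X0 X1 X2 X3 w : ℕ) (T : ℕ → ℕ) (nT M M3 : ℕ) (Lx TI : List ℕ) (rd : ℕ) : Bool :=
  allN 13 fun r2 => allN 13 fun r1 => allN 4 fun r0 =>
    ent X0 X1 X2 X3 w T nT M M3 Lx TI rd r2 r1 r0

/-- the sum of the vectors in a relation -/
def sumv (X0 X1 X2 X3 w : ℕ) (T : ℕ → ℕ) (a b c d : ℕ) (l : List ℕ) : ℕ → ℕ :=
  List.rec (motive := fun _ => ℕ → ℕ) (fun acc => acc)
    (fun t _ ih acc =>
      can X0 X1 X2 X3 (tab 7 t a) (tab 7 t b) (tab 7 t c) (tab 7 t d) fun rd i s =>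
      frc (Nat.add acc (Nat.mul (Nat.succ s) (Nat.shiftRight (tab w (T rd) i) 20))) fun acc => ih acc) l

/-- The relation number `q` for the class `(rd, r2, r1, r0)` gives the vector `r` (up to sign). -/
def clo (X0 X1 X2 X3 w : ℕ) (T : ℕ → ℕ) (M M3 rd r2 r1 r0 q r : ℕ) : Bool :=
  frc (tab 7 tC (Nat.add (Nat.mul rd 13) r1)) fun b =>
  frc (Nat.land (tab 4 t2 (Nat.add (Nat.mul (Nat.add (Nat.mul rd 13) r2) 81) b)) 7) fun rb =>
  cond (Nat.beq rb 4) false <| cond (Nat.beq rb r0) false <|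
  cond (Nat.blt rd 40) (cond (Nat.blt r2 13) (cond (Nat.blt r1 13) (cond (Nat.blt r0 4)
    (cond (Nat.beq (Nat.land r M3) 0)
      (frc (tab 7 tF (Nat.add (Nat.mul (Nat.add (Nat.mul rd 13) r2) 4) r0)) fun a =>
        frc (tab 7 tC (Nat.add (Nat.mul rd 13) r2)) fun c =>
        frc (tab 7 tD rd) fun d =>
        frc (Nat.shiftRight (tab w (T rd) (Nat.add (Nat.mul (Nat.add (Nat.mul r2 13) r1) 4) r0)) 20) fun v =>
        m3 M (sumv X0 X1 X2 X3 w T a b c d (nth [] rows q) (Nat.add v (Nat.mul 2 r)))) false)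
      false) false) false) false

/-- all closing relations -/
def clos (X0 X1 X2 X3 w : ℕ) (T : ℕ → ℕ) (M M3 : ℕ) (cl : List (ℕ × ℕ × ℕ × ℕ × ℕ × ℕ)) : Bool :=
  List.rec (motive := fun _ => Bool) true
    (fun p _ ih => cond (clo X0 X1 X2 X3 w T M M3 p.1 p.2.1 p.2.2.1 p.2.2.2.1 p.2.2.2.2.1 p.2.2.2.2.2)
      ih false) cl

/-- the linear combination of the vectors -/
def dot (cs : List ℕ) (rs : List ℕ) : ℕ :=
  List.rec (motive := fun _ => List ℕ → ℕ) (fun _ => 0)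
    (fun c _ ih rs => List.rec (motive := fun _ => ℕ) 0 (fun r rs _ => Nat.add (Nat.mul c r) (ih rs)) rs)
    cs rs

/-- all entries are at most two -/
def small (cs : List ℕ) : Bool :=
  List.rec (motive := fun _ => Bool) true (fun c _ ih => cond (Nat.ble c 2) ih false) cs

/-- the unit vectors are linear combinations of the vectors `rs` -/
def comb (nT M : ℕ) (rs : List ℕ) (co : List (List ℕ)) : Bool :=
  allN nT fun t => cond (small (nth [] co t))
    (m3 M (Nat.add (dot (nth [] co t) rs) (Nat.mul 2 (Nat.pow 256 t)))) false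

/-! ### meaning -/

/-- digit number `i` -/
def dg (c i : ℕ) : ℕ := c / 3 ^ i % 3

/-- the column with the code `c` -/
def dc (c : ℕ) (i : Fin 4) : ZMod 3 := ((dg c i.val : ℕ) : ZMod 3)

/-- the word with the columns `a b c d` -/
def wd (a b c d : ℕ) : List V3 := List.ofFn fun i : Fin 4 => ![dc a i, dc b i, dc c i, dc d i]

/-- the word of the class `(rd, r2, r1, r0)` -/
def repw (rd r2 r1 r0 : ℕ) : List V3 :=
  wd (tab 7 tF ((rd * 13 + r2) * 4 + r0)) (tab 7 tC (rd * 13 + r1)) (tab 7 tC (rd * 13 + r2)) (tab 7 tD rd)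

/-- the word of the class `(rd, i)` -/
def repi (rd i : ℕ) : List V3 := repw rd (i / 52) (i / 4 % 13) (i % 4)

/-- the word of the class number `j` -/
def repj (j : ℕ) : List V3 := repi (j / 676) (j % 676)

/-- the pattern -/
def PA : Finset (Fin 4 × Fin 4) := {(0, 2), (0, 3), (1, 3), (2, 3)}

/-- no nonzero functional vanishes on the letters -/
def Gen (w : List V3) : Prop := ∀ m : V3, (∀ x ∈ w, ∑ j, m j * x j = 0) → m = 0

/-- The class `(rd, r2, r1, r0)` is not degenerate. -/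
def NDg (rd r2 r1 r0 : ℕ) : Prop :=
  (Nat.land (tab 4 t2 ((rd * 13 + r2) * 81 + tab 7 tC (rd * 13 + r1))) 7) ≠ 4 ∧
  (Nat.land (tab 4 t2 ((rd * 13 + r2) * 81 + tab 7 tC (rd * 13 + r1))) 7) ≠ r0

/-- the invariances of `H` -/
def Inv {M : Type} [AddCommGroup M] [Module (ZMod 3) M] (X : Fin 4 → ℕ) (H : List V3 → M) : Prop :=
  (∀ u, IsU PA u → ∀ w, H (w.map (fun x => u.mulVec x)) = H w) ∧
  ∀ s : Fin 4 → ZMod 3, (∀ j, s j = 1 ∨ s j = -1) → ∀ w,
    H (w.map (fun x j => s j * x j)) = (∏ j, s j ^ X j) • H w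

/-- the class of a word -/
def SCan : Prop := ∀ (M : Type) [AddCommGroup M] [Module (ZMod 3) M] (X : Fin 4 → ℕ) (H : List V3 → M),
  Inv X H → ∀ a b c d : ℕ, a < 81 → b < 81 → c < 81 → d < 81 → Gen (wd a b c d) →
  can (X 0) (X 1) (X 2) (X 3) a b c d fun rd i s =>
    rd < 40 ∧ i < 676 ∧ s < 2 ∧ NDg rd (i / 52) (i / 4 % 13) (i % 4) ∧
      H (wd a b c d) = ((s + 1 : ℕ) : ZMod 3) • H (repi rd i)

/-- the relations -/
def SRow : Prop := ∀ (M : Type) [AddCommGroup M] [Module (ZMod 3) M] (H : List V3 → M), BA 4 H →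
  ∀ q < 22, ∀ a b c d : ℕ, a < 81 → b < 81 → c < 81 → d < 81 →
    (∀ t ∈ nth [] rows q, tab 7 t a < 81 ∧ tab 7 t b < 81 ∧ tab 7 t c < 81 ∧ tab 7 t d < 81) ∧
    (Gen (wd a b c d) → ∀ t ∈ nth [] rows q, Gen (wd (tab 7 t a) (tab 7 t b) (tab 7 t c) (tab 7 t d))) ∧
    H (wd a b c d) + ((nth [] rows q).map fun t =>
      H (wd (tab 7 t a) (tab 7 t b) (tab 7 t c) (tab 7 t d))).sum = 0

/-- every word with codes -/
def SCode : Prop := ∀ h : Fin 4 → V3, LinearIndependent (ZMod 3) h →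
  ∃ a b c d : ℕ, a < 81 ∧ b < 81 ∧ c < 81 ∧ d < 81 ∧ List.ofFn h = wd a b c d ∧ Gen (wd a b c d)

/-- the classes which are not degenerate have words with `Gen`, and valid column codes -/
def SGen : Prop := ∀ rd r2 r1 r0 : ℕ, rd < 40 → r2 < 13 → r1 < 13 → r0 < 4 →
  tab 7 tF ((rd * 13 + r2) * 4 + r0) < 81 ∧ tab 7 tC (rd * 13 + r1) < 81 ∧ tab 7 tC (rd * 13 + r2) < 81 ∧
    tab 7 tD rd < 81 ∧ (NDg rd r2 r1 r0 → Gen (repw rd r2 r1 r0))

/-- the value of a vector with `n` coordinates -/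
def VS {M : Type} [AddCommGroup M] [Module (ZMod 3) M] : (n : ℕ) → (ℕ → M) → ℕ → M
  | 0, _, _ => 0
  | n + 1, τ, v => ((v % 256 : ℕ) : ZMod 3) • τ 0 + VS n (fun t => τ (t + 1)) (v / 256)

/-- all coordinates are at most `B` -/
def Sm (B : ℕ) : ℕ → ℕ → Prop
  | 0, _ => True
  | n + 1, v => v % 256 ≤ B ∧ Sm B n (v / 256)

/-- `n` bytes `m` -/
def bytes (m : ℕ) : ℕ → ℕ
  | 0 => 0
  | n + 1 => m + 256 * bytes m n

/-- arithmetic of vectors -/
def SVec : Prop := ∀ (M : Type) [AddCommGroup M] [Module (ZMod 3) M] (n : ℕ) (τ : ℕ → M),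
  (∀ u v B C : ℕ, Sm B n u → Sm C n v → B + C < 256 → Sm (B + C) n (u + v) ∧
    VS n τ (u + v) = VS n τ u + VS n τ v) ∧
  (∀ u s B : ℕ, Sm B n u → B * s < 256 → Sm (B * s) n (s * u) ∧
    VS n τ (s * u) = ((s : ℕ) : ZMod 3) • VS n τ u) ∧
  (∀ S : ℕ, m3 (bytes 192 n) S = true → VS n τ S = 0) ∧
  (∀ v : ℕ, Nat.land v (bytes 252 n) = 0 → Sm 3 n v) ∧
  (∀ t < n, VS n τ (256 ^ t) = τ t ∧ Sm 1 n (256 ^ t)) ∧
  (VS n τ 0 = 0 ∧ Sm 0 n 0)

/-- soundness of the checker -/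
def SSound : Prop := ∀ (X : Fin 4 → ℕ) (w : ℕ) (T : ℕ → ℕ) (nT : ℕ) (Lx TI : List ℕ)
  (cl : List (ℕ × ℕ × ℕ × ℕ × ℕ × ℕ)) (co : List (List ℕ)), nT ≤ 22 → (∀ t ∈ cl, t.2.2.2.2.1 < 22) →
  cl.length ≤ 30 →
  (∀ rd < 40, blk (X 0) (X 1) (X 2) (X 3) w T nT (bytes 192 nT) (bytes 252 nT) Lx TI rd = true) →
  clos (X 0) (X 1) (X 2) (X 3) w T (bytes 192 nT) (bytes 252 nT) cl = true →
  comb nT (bytes 192 nT) (cl.map fun p => p.2.2.2.2.2) co = true →
  ∀ (M : Type) [AddCommGroup M] [Module (ZMod 3) M] (H : List V3 → M), BA 4 H → Inv X H →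
    (∀ j ∈ Lx, H (repj j) = 0) → ∀ h : Fin 4 → V3, LinearIndependent (ZMod 3) h → H (List.ofFn h) = 0

end

end Pool.Agent.H492.CT
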