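import Pool.Agent.H492.CT.Chk

/-!
# Codes of words and the arithmetic of vectors (helper30)
-/

set_option autoImplicit false

namespace Pool.Agent.H492.CT

open Pool.Agent.H492.UB

namespace CodeAux

/-- the code of a column -/
def code (x : Fin 4 → ZMod 3) : ℕ := (x 0).val + 3 * (x 1).val + 9 * (x 2).val + 27 * (x 3).val

theorem vlt (a : ZMod 3) : a.val < 3 := ZMod.val_lt a

theorem code_lt (x : Fin 4 → ZMod 3) : code x < 81 := by
  have h0 := vlt (x 0)
  have h1 := vlt (x 1)
  have h2 := vlt (x 2)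
  have h3 := vlt (x 3)
  unfold code
  omega

theorem dc_code (x : Fin 4 → ZMod 3) (i : Fin 4) : dc (code x) i = x i := by
  have h0 := vlt (x 0)
  have h1 := vlt (x 1)
  have h2 := vlt (x 2)
  have h3 := vlt (x 3)
  have key : dg (code x) i.val = (x i).val := by
    unfold dg code
    fin_cases i
    · show ((x 0).val + 3 * (x 1).val + 9 * (x 2).val + 27 * (x 3).val) / 3 ^ 0 % 3 = (x 0).val
      norm_num
      omega
    · show ((x 0).val + 3 * (x 1).val + 9 * (x 2).val + 27 * (x 3).val) / 3 ^ 1 % 3 = (x 1).val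
      norm_num
      omega
    · show ((x 0).val + 3 * (x 1).val + 9 * (x 2).val + 27 * (x 3).val) / 3 ^ 2 % 3 = (x 2).val
      norm_num
      omega
    · show ((x 0).val + 3 * (x 1).val + 9 * (x 2).val + 27 * (x 3).val) / 3 ^ 3 % 3 = (x 3).val
      norm_num
      omega
  unfold dc
  rw [key]
  exact ZMod.natCast_zmod_val _

theorem gen (h : Fin 4 → V3) (hl : LinearIndependent (ZMod 3) h) : Gen (List.ofFn h) := by
  intro m hm
  have hA : IsUnit (Matrix.of h) := by
    rw [← Matrix.linearIndependent_rows_iff_isUnit]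
    exact hl
  have hinj := Matrix.mulVec_injective_of_isUnit hA
  apply hinj
  rw [Matrix.mulVec_zero]
  funext i
  have h1 := hm (h i) ((List.mem_ofFn' h (h i)).2 ⟨i, rfl⟩)
  show ∑ j, h i j * m j = 0
  rw [← h1]
  exact Finset.sum_congr rfl fun j _ => mul_comm _ _

theorem land_split (v m k : ℕ) (hm : m < 256) (h : Nat.land v (m + 256 * k) = 0) :
    Nat.land (v % 256) m = 0 ∧ Nat.land (v / 256) k = 0 := by
  have h' : v &&& (m + 256 * k) = 0 := h
  have h1 := Nat.and_mod_two_pow (a := v) (b := m + 256 * k) (n := 8)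
  have h2 := Nat.and_div_two_pow (a := v) (b := m + 256 * k) (n := 8)
  rw [h'] at h1 h2
  have e1 : (m + 256 * k) % 2 ^ 8 = m := by
    norm_num
    omega
  have e2 : (m + 256 * k) / 2 ^ 8 = k := by
    norm_num
    omega
  rw [e1] at h1
  rw [e2] at h2
  norm_num at h1 h2
  exact ⟨h1.symm, h2.symm⟩

theorem byte192 : ∀ x < 256, Nat.land x 192 = 0 → x ≤ 63 := by decide +kernel

theorem byte252 : ∀ x < 256, Nat.land x 252 = 0 → x ≤ 3 := by decide +kernel

theorem sm192 (n : ℕ) : ∀ v : ℕ, Nat.land v (bytes 192 n) = 0 → Sm 63 n v := by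
  induction n with
  | zero => intro v _; exact trivial
  | succ n ih =>
    intro v hv
    obtain ⟨h1, h2⟩ := land_split v 192 (bytes 192 n) (by norm_num) hv
    exact ⟨byte192 _ (Nat.mod_lt _ (by norm_num)) h1, ih _ h2⟩

theorem sm252 (n : ℕ) : ∀ v : ℕ, Nat.land v (bytes 252 n) = 0 → Sm 3 n v := by
  induction n with
  | zero => intro v _; exact trivial
  | succ n ih =>
    intro v hv
    obtain ⟨h1, h2⟩ := land_split v 252 (bytes 252 n) (by norm_num) hv
    exact ⟨byte252 _ (Nat.mod_lt _ (by norm_num)) h1, ih _ h2⟩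

section

variable {M : Type} [AddCommGroup M] [Module (ZMod 3) M]

theorem vadd (n : ℕ) : ∀ (τ : ℕ → M) (u v B C : ℕ), Sm B n u → Sm C n v → B + C < 256 →
    Sm (B + C) n (u + v) ∧ VS n τ (u + v) = VS n τ u + VS n τ v := by
  induction n with
  | zero =>
    intro τ u v B C _ _ _
    refine ⟨trivial, ?_⟩
    show (0 : M) = 0 + 0
    rw [add_zero]
  | succ n ih =>
    intro τ u v B C hu hv hBC
    have hu1 : u % 256 ≤ B := hu.1
    have hv1 : v % 256 ≤ C := hv.1
    obtain ⟨h1, h2⟩ := ih (fun t => τ (t + 1)) (u / 256) (v / 256) B C hu.2 hv.2 hBC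
    have e1 : (u + v) % 256 = u % 256 + v % 256 := by omega
    have e2 : (u + v) / 256 = u / 256 + v / 256 := by omega
    refine ⟨⟨?_, ?_⟩, ?_⟩
    · rw [e1]
      omega
    · rw [e2]
      exact h1
    · show (((u + v) % 256 : ℕ) : ZMod 3) • τ 0 + VS n (fun t => τ (t + 1)) ((u + v) / 256) =
        (((u % 256 : ℕ) : ZMod 3) • τ 0 + VS n (fun t => τ (t + 1)) (u / 256)) +
          (((v % 256 : ℕ) : ZMod 3) • τ 0 + VS n (fun t => τ (t + 1)) (v / 256))
      rw [e1, e2, h2, Nat.cast_add, add_smul]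
      abel

theorem vmul (n : ℕ) : ∀ (τ : ℕ → M) (u s B : ℕ), Sm B n u → B * s < 256 →
    Sm (B * s) n (s * u) ∧ VS n τ (s * u) = ((s : ℕ) : ZMod 3) • VS n τ u := by
  induction n with
  | zero =>
    intro τ u s B _ _
    refine ⟨trivial, ?_⟩
    show (0 : M) = ((s : ℕ) : ZMod 3) • (0 : M)
    rw [smul_zero]
  | succ n ih =>
    intro τ u s B hu hB
    have hu1 : u % 256 ≤ B := hu.1
    obtain ⟨h1, h2⟩ := ih (fun t => τ (t + 1)) (u / 256) s B hu.2 hB
    have h3 : s * (u % 256) ≤ B * s := by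
      rw [mul_comm B s]
      exact Nat.mul_le_mul_left s hu1
    have e0 : s * u = s * (u % 256) + 256 * (s * (u / 256)) := by
      have h4 := Nat.mod_add_div u 256
      calc s * u = s * (u % 256 + 256 * (u / 256)) := by rw [h4]
        _ = _ := by ring
    have e1 : (s * u) % 256 = s * (u % 256) := by
      rw [e0, Nat.add_mul_mod_self_left]
      exact Nat.mod_eq_of_lt (by omega)
    have e2 : (s * u) / 256 = s * (u / 256) := by
      rw [e0, Nat.add_mul_div_left _ _ (by norm_num)]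
      rw [Nat.div_eq_of_lt (by omega), zero_add]
    refine ⟨⟨?_, ?_⟩, ?_⟩
    · rw [e1]
      exact h3
    · rw [e2]
      exact h1
    · show (((s * u) % 256 : ℕ) : ZMod 3) • τ 0 + VS n (fun t => τ (t + 1)) ((s * u) / 256) =
        ((s : ℕ) : ZMod 3) • (((u % 256 : ℕ) : ZMod 3) • τ 0 +
          VS n (fun t => τ (t + 1)) (u / 256))
      rw [e1, e2, h2, Nat.cast_mul, mul_smul, smul_add]

theorem vzero (n : ℕ) : ∀ τ : ℕ → M, VS n τ 0 = 0 ∧ Sm 0 n 0 := by
  induction n with
  | zero => intro τ; exact ⟨rfl, trivial⟩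
  | succ n ih =>
    intro τ
    obtain ⟨h1, h2⟩ := ih (fun t => τ (t + 1))
    refine ⟨?_, ⟨le_rfl, ?_⟩⟩
    · show (((0 : ℕ) % 256 : ℕ) : ZMod 3) • τ 0 + VS n (fun t => τ (t + 1)) (0 / 256) = 0
      rw [Nat.zero_mod, Nat.zero_div, h1, Nat.cast_zero, zero_smul, add_zero]
    · rw [Nat.zero_div]
      exact h2

theorem sm_mono (n : ℕ) : ∀ (B C v : ℕ), B ≤ C → Sm B n v → Sm C n v := by
  induction n with
  | zero => intro B C v _ _; exact trivial
  | succ n ih =>
    intro B C v hBC h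
    exact ⟨le_trans h.1 hBC, ih B C _ hBC h.2⟩

theorem vpow (n : ℕ) : ∀ (τ : ℕ → M) (t : ℕ), t < n →
    VS n τ (256 ^ t) = τ t ∧ Sm 1 n (256 ^ t) := by
  induction n with
  | zero => intro τ t ht; omega
  | succ n ih =>
    intro τ t ht
    cases t with
    | zero =>
      obtain ⟨h1, h2⟩ := vzero n (fun t => τ (t + 1))
      refine ⟨?_, ⟨?_, ?_⟩⟩
      · show (((256 ^ 0 : ℕ) % 256 : ℕ) : ZMod 3) • τ 0 +
          VS n (fun t => τ (t + 1)) (256 ^ 0 / 256) = τ 0
        have e1 : (256 ^ 0 : ℕ) % 256 = 1 := by norm_num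
        have e2 : (256 ^ 0 : ℕ) / 256 = 0 := by norm_num
        rw [e1, e2, h1, Nat.cast_one, one_smul, add_zero]
      · norm_num
      · have e2 : (256 ^ 0 : ℕ) / 256 = 0 := by norm_num
        rw [e2]
        exact sm_mono n 0 1 0 (by norm_num) h2
    | succ t =>
      obtain ⟨h1, h2⟩ := ih (fun t => τ (t + 1)) t (by omega)
      have e1 : (256 ^ (t + 1) : ℕ) % 256 = 0 := by
        rw [pow_succ]
        exact Nat.mul_mod_left _ _
      have e2 : (256 ^ (t + 1) : ℕ) / 256 = 256 ^ t := by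
        rw [pow_succ]
        exact Nat.mul_div_cancel _ (by norm_num)
      refine ⟨?_, ⟨?_, ?_⟩⟩
      · show (((256 ^ (t + 1) : ℕ) % 256 : ℕ) : ZMod 3) • τ 0 +
          VS n (fun t => τ (t + 1)) (256 ^ (t + 1) / 256) = τ (t + 1)
        rw [e1, e2, h1, Nat.cast_zero, zero_smul, zero_add]
      · rw [e1]
        norm_num
      · rw [e2]
        exact h2

theorem vm3 (n : ℕ) (τ : ℕ → M) (S : ℕ) (h : m3 (bytes 192 n) S = true) : VS n τ S = 0 := by
  unfold m3 at h
  rw [frc_eq] at h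
  cases h1 : Nat.beq (Nat.mul 3 (Nat.div S 3)) S with
  | false =>
    rw [h1] at h
    exact absurd (show false = true from h) (by decide)
  | true =>
    rw [h1] at h
    have h2 : Nat.beq (Nat.land (Nat.div S 3) (bytes 192 n)) 0 = true := h
    have h3 : 3 * (S / 3) = S := Nat.eq_of_beq_eq_true h1
    have h4 : Nat.land (S / 3) (bytes 192 n) = 0 := Nat.eq_of_beq_eq_true h2
    have h5 := sm192 n _ h4
    obtain ⟨-, h6⟩ := vmul n τ (S / 3) 3 63 h5 (by norm_num)
    rw [h3] at h6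
    rw [h6]
    have h7 : ((3 : ℕ) : ZMod 3) = 0 := by decide
    rw [h7, zero_smul]

end

end CodeAux

/-- every word with codes -/
theorem sCode : SCode := by
  intro h hl
  have e : List.ofFn h = wd (CodeAux.code fun i => h i 0) (CodeAux.code fun i => h i 1)
      (CodeAux.code fun i => h i 2) (CodeAux.code fun i => h i 3) := by
    unfold wd
    congr 1
    funext i
    rw [CodeAux.dc_code, CodeAux.dc_code, CodeAux.dc_code, CodeAux.dc_code]
    funext j
    fin_cases j <;> rfl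
  refine ⟨_, _, _, _, CodeAux.code_lt _, CodeAux.code_lt _, CodeAux.code_lt _,
    CodeAux.code_lt _, e, ?_⟩
  rw [← e]
  exact CodeAux.gen h hl

/-- arithmetic of vectors -/
theorem sVec : SVec := by
  intro M _ _ n τ
  exact ⟨fun u v B C h1 h2 h3 => CodeAux.vadd n τ u v B C h1 h2 h3,
    fun u s B h1 h2 => CodeAux.vmul n τ u s B h1 h2,
    fun S h => CodeAux.vm3 n τ S h, fun v h => CodeAux.sm252 n v h,
    fun t ht => CodeAux.vpow n τ t ht, CodeAux.vzero n τ⟩

end Pool.Agent.H492.CT
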