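import Pool.Agent.H492.CT.D3

/-!
# The certificate for the characters with exponents [1, 1, 0, 0]: kernel checks
-/

set_option autoImplicit false

namespace Pool.Agent.H492.CT.C3

theorem k0 : allN 5 (fun i => blk 1 1 0 0 148 T 16 (bytes 192 16) (bytes 252 16) Lx TI (Nat.add 0 i)) = true := by
  decide +kernel

theorem k1 : allN 5 (fun i => blk 1 1 0 0 148 T 16 (bytes 192 16) (bytes 252 16) Lx TI (Nat.add 5 i)) = true := by
  decide +kernel

theorem k2 : allN 5 (fun i => blk 1 1 0 0 148 T 16 (bytes 192 16) (bytes 252 16) Lx TI (Nat.add 10 i)) = true := by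
  decide +kernel

theorem k3 : allN 5 (fun i => blk 1 1 0 0 148 T 16 (bytes 192 16) (bytes 252 16) Lx TI (Nat.add 15 i)) = true := by
  decide +kernel

theorem k4 : allN 5 (fun i => blk 1 1 0 0 148 T 16 (bytes 192 16) (bytes 252 16) Lx TI (Nat.add 20 i)) = true := by
  decide +kernel

theorem k5 : allN 5 (fun i => blk 1 1 0 0 148 T 16 (bytes 192 16) (bytes 252 16) Lx TI (Nat.add 25 i)) = true := by
  decide +kernel

theorem k6 : allN 5 (fun i => blk 1 1 0 0 148 T 16 (bytes 192 16) (bytes 252 16) Lx TI (Nat.add 30 i)) = true := by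
  decide +kernel

theorem k7 : allN 5 (fun i => blk 1 1 0 0 148 T 16 (bytes 192 16) (bytes 252 16) Lx TI (Nat.add 35 i)) = true := by
  decide +kernel

theorem kc : clos 1 1 0 0 148 T (bytes 192 16) (bytes 252 16) cl = true := by
  decide +kernel

theorem kb : comb 16 (bytes 192 16) (cl.map fun p => p.2.2.2.2.2) co = true := by
  decide +kernel

theorem kall (rd : ℕ) (h : rd < 40) : blk 1 1 0 0 148 T 16 (bytes 192 16) (bytes 252 16) Lx TI rd = true := by
  have h1 : ∀ (n : ℕ) (f : ℕ → Bool), allN n f = true → ∀ i < n, f i = true := by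
    intro n
    induction n with
    | zero => intro f _ i hi; omega
    | succ n ih =>
      intro f hf i hi
      have h2 : (cond (f n) (allN n f) false) = true := hf
      rcases h3 : f n with _ | _
      · rw [h3] at h2; exact absurd h2 (by simp)
      · rw [h3] at h2
        rcases Nat.lt_succ_iff_lt_or_eq.mp hi with h4 | rfl
        · exact ih f h2 i h4
        · exact h3
  have key : ∀ g : ℕ, ∀ (_ : allN 5 (fun i => blk 1 1 0 0 148 T 16 (bytes 192 16) (bytes 252 16) Lx TI (Nat.add g i)) = true), ∀ i < 5,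
      blk 1 1 0 0 148 T 16 (bytes 192 16) (bytes 252 16) Lx TI (g + i) = true := fun g hg i hi => h1 5 _ hg i hi
  rcases (by omega : (0 ≤ rd ∧ rd < 5) ∨ (5 ≤ rd ∧ rd < 10) ∨ (10 ≤ rd ∧ rd < 15) ∨ (15 ≤ rd ∧ rd < 20) ∨ (20 ≤ rd ∧ rd < 25) ∨ (25 ≤ rd ∧ rd < 30) ∨ (30 ≤ rd ∧ rd < 35) ∨ (35 ≤ rd ∧ rd < 40)) with h2 | h2 | h2 | h2 | h2 | h2 | h2 | h2
  · have := key 0 k0 (rd - 0) (by omega)
    rwa [Nat.add_sub_cancel' h2.1] at this
  · have := key 5 k1 (rd - 5) (by omega)
    rwa [Nat.add_sub_cancel' h2.1] at this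
  · have := key 10 k2 (rd - 10) (by omega)
    rwa [Nat.add_sub_cancel' h2.1] at this
  · have := key 15 k3 (rd - 15) (by omega)
    rwa [Nat.add_sub_cancel' h2.1] at this
  · have := key 20 k4 (rd - 20) (by omega)
    rwa [Nat.add_sub_cancel' h2.1] at this
  · have := key 25 k5 (rd - 25) (by omega)
    rwa [Nat.add_sub_cancel' h2.1] at this
  · have := key 30 k6 (rd - 30) (by omega)
    rwa [Nat.add_sub_cancel' h2.1] at this
  · have := key 35 k7 (rd - 35) (by omega)
    rwa [Nat.add_sub_cancel' h2.1] at this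

theorem klen : cl.length ≤ 30 ∧ (∀ t ∈ cl, t.2.2.2.2.1 < 22) ∧ Lx.length = 219 := by
  refine ⟨by decide +kernel, by decide +kernel, by decide +kernel⟩

end Pool.Agent.H492.CT.C3
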