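import Pool.Agent.H492.CT.Chk
import Pool.Agent.H492.UB.SOddPf

/-!
# The relations of the certificate
-/

set_option autoImplicit false

namespace Pool.Agent.H492.CT

open Pool.Agent.H492.UB

namespace Row962

/-- the permutations -/
def perms : List (List (List ℕ)) :=
  [[[1, 0, 2, 3], [1, 2, 0, 3], [1, 2, 3, 0]],
   [[1, 0, 2, 3], [0, 2, 1, 3], [0, 2, 3, 1]],
   [[2, 0, 1, 3], [0, 2, 1, 3], [0, 1, 3, 2]],
   [[3, 0, 1, 2], [0, 3, 1, 2], [0, 1, 3, 2]],
   [[0, 2, 1, 3], [0, 2, 3, 1], [2, 0, 1, 3], [2, 0, 3, 1], [2, 3, 0, 1]],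
   [[0, 2, 1, 3], [0, 1, 3, 2], [1, 0, 2, 3], [1, 0, 3, 2], [1, 3, 0, 2]],
   [[0, 3, 1, 2], [0, 1, 3, 2], [1, 0, 3, 2], [1, 0, 2, 3], [1, 2, 0, 3]],
   [[1, 2, 0, 3], [1, 0, 2, 3], [1, 0, 3, 2], [0, 1, 3, 2], [0, 3, 1, 2]],
   [[1, 3, 0, 2], [1, 0, 3, 2], [1, 0, 2, 3], [0, 1, 3, 2], [0, 2, 1, 3]],
   [[2, 3, 0, 1], [2, 0, 3, 1], [2, 0, 1, 3], [0, 2, 3, 1], [0, 2, 1, 3]],
   [[3, 2, 1, 0]]]

/-- digits -/
def dk (z i : ℕ) : ℕ := Nat.mod (Nat.div z (Nat.pow 3 i)) 3

theorem dk_eq (z i : ℕ) : dk z i = dg z i := rfl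

/-- differences of the digits -/
def yk (z i : ℕ) : ℕ :=
  Nat.rec (motive := fun _ => ℕ) (dk z 0)
    (fun m _ => Nat.mod (Nat.add (dk z (Nat.succ m)) (Nat.mul 2 (dk z m))) 3) i

/-- check of one argument of a table -/
def okx (f : ℕ → ℕ → ℕ) (t : ℕ) (p : List ℕ) (x : ℕ) : Bool :=
  frc (tab 7 t x) fun z =>
    cond (Nat.blt z 81) (allN 4 fun i => Nat.beq (f z i) (f x (nth 0 p i))) false

/-- check of a list of tables -/
def okl (f : ℕ → ℕ → ℕ) : List ℕ → List (List ℕ) → Bool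
  | [], [] => true
  | t :: l, p :: l' => cond (allN 81 (okx f t p)) (okl f l l') false
  | _, _ => false

theorem allN_spec : ∀ (n : ℕ) (f : ℕ → Bool), allN n f = true → ∀ i < n, f i = true
  | 0, f, _, i, hi => absurd hi (Nat.not_lt_zero i)
  | n + 1, f, h, i, hi => by
    have e : allN (n + 1) f = cond (f n) (allN n f) false := rfl
    rw [e] at h
    cases hf : f n with
    | false => rw [hf] at h; exact absurd h Bool.false_ne_true
    | true =>
      rw [hf] at h
      rcases Nat.lt_succ_iff_lt_or_eq.1 hi with h1 | h1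
      · exact allN_spec n f h i h1
      · rw [h1]; exact hf

/-- the meaning of the check -/
def R (f : ℕ → ℕ → ℕ) (t : ℕ) (p : List ℕ) : Prop :=
  ∀ x < 81, tab 7 t x < 81 ∧ ∀ i < 4, f (tab 7 t x) i = f x (nth 0 p i)

theorem okx_spec {f : ℕ → ℕ → ℕ} {t : ℕ} {p : List ℕ} {x : ℕ} (h : okx f t p x = true) :
    tab 7 t x < 81 ∧ ∀ i < 4, f (tab 7 t x) i = f x (nth 0 p i) := by
  have e : okx f t p x = cond (Nat.blt (tab 7 t x) 81)
    (allN 4 fun i => Nat.beq (f (tab 7 t x) i) (f x (nth 0 p i))) false := rfl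
  rw [e] at h
  cases hb : Nat.blt (tab 7 t x) 81 with
  | false => rw [hb] at h; exact absurd h Bool.false_ne_true
  | true =>
    rw [hb] at h
    refine ⟨?_, fun i hi => ?_⟩
    · exact Nat.le_of_ble_eq_true hb
    · exact Nat.eq_of_beq_eq_true
        (allN_spec 4 (fun i => Nat.beq (f (tab 7 t x) i) (f x (nth 0 p i))) h i hi)

theorem okt_spec {f : ℕ → ℕ → ℕ} {t : ℕ} {p : List ℕ} (h : allN 81 (okx f t p) = true) :
    R f t p := fun x hx => okx_spec (allN_spec 81 _ h x hx)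

theorem okl_mem {f : ℕ → ℕ → ℕ} : ∀ (l : List ℕ) (l' : List (List ℕ)), okl f l l' = true →
    ∀ t ∈ l, ∃ p ∈ l', R f t p
  | [], _, _, t, ht => absurd ht List.not_mem_nil
  | s :: l, [], h, _, _ => absurd h (by simp [okl])
  | s :: l, p :: l', h, t, ht => by
    have e : okl f (s :: l) (p :: l') = cond (allN 81 (okx f s p)) (okl f l l') false := rfl
    rw [e] at h
    cases hb : allN 81 (okx f s p) with
    | false => rw [hb] at h; exact absurd h Bool.false_ne_true
    | true =>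
      rw [hb] at h
      rcases List.mem_cons.1 ht with h1 | h1
      · rw [h1]
        exact ⟨p, List.mem_cons_self, okt_spec hb⟩
      · obtain ⟨p', hp', h2⟩ := okl_mem l l' h t h1
        exact ⟨p', List.mem_cons_of_mem _ hp', h2⟩

theorem okl_map {f : ℕ → ℕ → ℕ} {M : Type} (F : ℕ → M) (F' : List ℕ → M)
    (hF : ∀ t p, R f t p → F t = F' p) : ∀ (l : List ℕ) (l' : List (List ℕ)),
    okl f l l' = true → l.map F = l'.map F'
  | [], [], _ => rfl
  | [], _ :: _, h => absurd h (by simp [okl])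
  | s :: l, [], h => absurd h (by simp [okl])
  | s :: l, p :: l', h => by
    have e : okl f (s :: l) (p :: l') = cond (allN 81 (okx f s p)) (okl f l l') false := rfl
    rw [e] at h
    cases hb : allN 81 (okx f s p) with
    | false => rw [hb] at h; exact absurd h Bool.false_ne_true
    | true =>
      rw [hb] at h
      rw [List.map_cons, List.map_cons, hF s p (okt_spec hb), okl_map F F' hF l l' h]

theorem chkX : allN 11 (fun q => okl dk (nth [] rows q) (nth [] perms q)) = true := by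
  decide +kernel

theorem chkY : allN 11 (fun q => okl yk (nth [] rows (Nat.add q 11)) (nth [] perms q)) = true := by
  decide +kernel

theorem chkP : ∀ q < 11, ∀ p ∈ nth [] perms q,
    (∀ i < 4, nth 0 p i < 4) ∧ ∀ k < 4, ∃ i < 4, nth 0 p i = k := by
  decide

/-! ### Letters -/

/-- the letters, or the differences of the letters -/
def lt (f : ℕ → ℕ → ℕ) (a b c d i : ℕ) : V3 :=
  ![(f a i : ZMod 3), (f b i : ZMod 3), (f c i : ZMod 3), (f d i : ZMod 3)]

theorem wd_eq (a b c d : ℕ) :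
    wd a b c d = [lt dk a b c d 0, lt dk a b c d 1, lt dk a b c d 2, lt dk a b c d 3] := by
  unfold wd
  simp only [List.ofFn_succ, List.ofFn_zero]
  rfl

theorem yk_cast (z i : ℕ) : ((yk z (i + 1) : ℕ) : ZMod 3) = (dk z (i + 1) : ZMod 3) - dk z i := by
  have e : yk z (i + 1) = (dk z (i + 1) + 2 * dk z i) % 3 := rfl
  rw [e, ZMod.natCast_mod]
  push_cast
  have h : (2 : ZMod 3) = -1 := by decide
  rw [h]
  ring

theorem lt_zero (a b c d : ℕ) : lt yk a b c d 0 = lt dk a b c d 0 := rfl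

theorem lt_succ (a b c d i : ℕ) :
    lt yk a b c d (i + 1) = lt dk a b c d (i + 1) - lt dk a b c d i := by
  unfold lt
  rw [yk_cast, yk_cast, yk_cast, yk_cast]
  funext j
  fin_cases j <;> rfl

theorem wd_ps (a b c d : ℕ) :
    wd a b c d = ps 0 [lt yk a b c d 0, lt yk a b c d 1, lt yk a b c d 2, lt yk a b c d 3] := by
  rw [wd_eq]
  simp only [ps_cons, ps_nil]
  rw [lt_zero, lt_succ a b c d 0, lt_succ a b c d 1, lt_succ a b c d 2]
  simp

/-- the value of a functional -/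
def L (m x : V3) : ZMod 3 := ∑ j, m j * x j

theorem L_sub (m x y : V3) : L m (x - y) = L m x - L m y := by
  simp [L, mul_sub, Finset.sum_sub_distrib]

theorem gen_X (a b c d : ℕ) :
    Gen (wd a b c d) ↔ ∀ m : V3, (∀ i < 4, L m (lt dk a b c d i) = 0) → m = 0 := by
  have key : ∀ m : V3, (∀ x ∈ wd a b c d, ∑ j, m j * x j = 0) ↔
      ∀ i < 4, L m (lt dk a b c d i) = 0 := by
    intro m
    rw [wd_eq]
    constructor
    · intro h i hi
      interval_cases i
      · exact h _ (by simp)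
      · exact h _ (by simp)
      · exact h _ (by simp)
      · exact h _ (by simp)
    · intro h x hx
      simp only [List.mem_cons, List.not_mem_nil, or_false] at hx
      rcases hx with rfl | rfl | rfl | rfl
      · exact h 0 (by norm_num)
      · exact h 1 (by norm_num)
      · exact h 2 (by norm_num)
      · exact h 3 (by norm_num)
  unfold Gen
  constructor
  · intro h m hm
    exact h m ((key m).2 hm)
  · intro h m hm
    exact h m ((key m).1 hm)

theorem gen_Y (a b c d : ℕ) :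
    Gen (wd a b c d) ↔ ∀ m : V3, (∀ i < 4, L m (lt yk a b c d i) = 0) → m = 0 := by
  have key : ∀ m : V3, (∀ i < 4, L m (lt dk a b c d i) = 0) ↔
      ∀ i < 4, L m (lt yk a b c d i) = 0 := by
    intro m
    constructor
    · intro h i hi
      rcases i with _ | i
      · rw [lt_zero]; exact h 0 hi
      · rw [lt_succ, L_sub, h _ hi, h i (by omega), sub_zero]
    · intro h i
      induction i with
      | zero =>
        intro hi
        rw [← lt_zero]; exact h 0 hi
      | succ i ih =>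
        intro hi
        have h1 := h (i + 1) hi
        rw [lt_succ, L_sub, ih (by omega), sub_zero] at h1
        exact h1
  rw [gen_X]
  constructor
  · intro h m hm
    exact h m ((key m).2 hm)
  · intro h m hm
    exact h m ((key m).1 hm)

/-! ### Alternal functions -/

section alt

variable {M : Type} [AddCommGroup M]

theorem sum_neg_map {α : Type} (F : α → M) : ∀ l : List α,
    (l.map fun x => - F x).sum = - (l.map F).sum
  | [] => by simp
  | x :: l => by
    rw [List.map_cons, List.map_cons, List.sum_cons, List.sum_cons, sum_neg_map F l, neg_add]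

theorem altX {H : List V3 → M} (h : BA 4 H) : Alt 4 H := by
  intro a b ha hb hab
  have h1 := h.1 a b ha hb hab
  have h2 : ((sh a b).map fun w => H w.reverse) = (sh a b).map fun w => - H w := by
    refine List.map_congr_left fun w hw => ?_
    refine T3odd.revX h w ?_
    rw [(sh_perm a b w hw).length_eq, List.length_append, hab]
  rw [h2, sum_neg_map] at h1
  exact neg_eq_zero.1 h1

theorem rel {G : List V3 → M} (hG : Alt 4 G) (hr : ∀ w : List V3, w.length = 4 → G w.reverse = - G w)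
    (l : ℕ → V3) (q : ℕ) (hq : q < 11) :
    G [l 0, l 1, l 2, l 3] + ((nth [] perms q).map fun p =>
      G [l (nth 0 p 0), l (nth 0 p 1), l (nth 0 p 2), l (nth 0 p 3)]).sum = 0 := by
  have hX : ∀ x y z t : V3, G [x, y, z, t] + (G [y, x, z, t] + (G [y, z, x, t] + G [y, z, t, x])) = 0 := by
    intro x y z t
    have h := hG [x] [y, z, t] (by simp) (by simp) rfl
    simp only [S, sh_cons_cons, sh_nil_left, sh_nil_right, List.map_cons, List.map_append,
      List.map_nil, List.sum_append, List.sum_cons, List.sum_nil, add_zero] at h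
    exact h
  have hX2 : ∀ x y z t : V3, G [x, y, z, t] + (G [x, z, y, t] + (G [x, z, t, y] +
      (G [z, x, y, t] + (G [z, x, t, y] + G [z, t, x, y])))) = 0 := by
    intro x y z t
    have h := hG [x, y] [z, t] (by simp) (by simp) rfl
    simp only [S, sh_cons_cons, sh_nil_left, sh_nil_right, List.map_cons, List.map_append,
      List.map_nil, List.sum_append, List.sum_cons, List.sum_nil, add_zero] at h
    rw [← h]
    abel
  have e : ∀ a b c d : ℕ, (fun p : List ℕ => G [l (nth 0 p 0), l (nth 0 p 1), l (nth 0 p 2),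
      l (nth 0 p 3)]) [a, b, c, d] = G [l a, l b, l c, l d] := fun _ _ _ _ => rfl
  interval_cases q
  · show G [l 0, l 1, l 2, l 3] + (G [l 1, l 0, l 2, l 3] + (G [l 1, l 2, l 0, l 3] +
      (G [l 1, l 2, l 3, l 0] + 0))) = 0
    refine Eq.trans ?_ (hX (l 0) (l 1) (l 2) (l 3)); abel
  · show G [l 0, l 1, l 2, l 3] + (G [l 1, l 0, l 2, l 3] + (G [l 0, l 2, l 1, l 3] +
      (G [l 0, l 2, l 3, l 1] + 0))) = 0
    refine Eq.trans ?_ (hX (l 1) (l 0) (l 2) (l 3)); abel
  · show G [l 0, l 1, l 2, l 3] + (G [l 2, l 0, l 1, l 3] + (G [l 0, l 2, l 1, l 3] +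
      (G [l 0, l 1, l 3, l 2] + 0))) = 0
    refine Eq.trans ?_ (hX (l 2) (l 0) (l 1) (l 3)); abel
  · show G [l 0, l 1, l 2, l 3] + (G [l 3, l 0, l 1, l 2] + (G [l 0, l 3, l 1, l 2] +
      (G [l 0, l 1, l 3, l 2] + 0))) = 0
    refine Eq.trans ?_ (hX (l 3) (l 0) (l 1) (l 2)); abel
  · show G [l 0, l 1, l 2, l 3] + (G [l 0, l 2, l 1, l 3] + (G [l 0, l 2, l 3, l 1] +
      (G [l 2, l 0, l 1, l 3] + (G [l 2, l 0, l 3, l 1] + (G [l 2, l 3, l 0, l 1] + 0))))) = 0
    refine Eq.trans ?_ (hX2 (l 0) (l 1) (l 2) (l 3)); abel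
  · show G [l 0, l 1, l 2, l 3] + (G [l 0, l 2, l 1, l 3] + (G [l 0, l 1, l 3, l 2] +
      (G [l 1, l 0, l 2, l 3] + (G [l 1, l 0, l 3, l 2] + (G [l 1, l 3, l 0, l 2] + 0))))) = 0
    refine Eq.trans ?_ (hX2 (l 0) (l 2) (l 1) (l 3)); abel
  · show G [l 0, l 1, l 2, l 3] + (G [l 0, l 3, l 1, l 2] + (G [l 0, l 1, l 3, l 2] +
      (G [l 1, l 0, l 3, l 2] + (G [l 1, l 0, l 2, l 3] + (G [l 1, l 2, l 0, l 3] + 0))))) = 0
    refine Eq.trans ?_ (hX2 (l 0) (l 3) (l 1) (l 2)); abel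
  · show G [l 0, l 1, l 2, l 3] + (G [l 1, l 2, l 0, l 3] + (G [l 1, l 0, l 2, l 3] +
      (G [l 1, l 0, l 3, l 2] + (G [l 0, l 1, l 3, l 2] + (G [l 0, l 3, l 1, l 2] + 0))))) = 0
    refine Eq.trans ?_ (hX2 (l 1) (l 2) (l 0) (l 3)); abel
  · show G [l 0, l 1, l 2, l 3] + (G [l 1, l 3, l 0, l 2] + (G [l 1, l 0, l 3, l 2] +
      (G [l 1, l 0, l 2, l 3] + (G [l 0, l 1, l 3, l 2] + (G [l 0, l 2, l 1, l 3] + 0))))) = 0
    refine Eq.trans ?_ (hX2 (l 1) (l 3) (l 0) (l 2)); abel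
  · show G [l 0, l 1, l 2, l 3] + (G [l 2, l 3, l 0, l 1] + (G [l 2, l 0, l 3, l 1] +
      (G [l 2, l 0, l 1, l 3] + (G [l 0, l 2, l 3, l 1] + (G [l 0, l 2, l 1, l 3] + 0))))) = 0
    refine Eq.trans ?_ (hX2 (l 2) (l 3) (l 0) (l 1)); abel
  · show G [l 0, l 1, l 2, l 3] + (G [l 3, l 2, l 1, l 0] + 0) = 0
    have h := hr [l 0, l 1, l 2, l 3] rfl
    have e2 : [l 0, l 1, l 2, l 3].reverse = [l 3, l 2, l 1, l 0] := rfl
    rw [e2] at h
    rw [h]
    abel

end alt

theorem main {M : Type} [AddCommGroup M] (f : ℕ → ℕ → ℕ) (rq : List ℕ) (q : ℕ) (hq : q < 11)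
    (hf : okl f rq (nth [] perms q) = true) (G H : List V3 → M)
    (hGH : ∀ a b c d, H (wd a b c d) = G [lt f a b c d 0, lt f a b c d 1, lt f a b c d 2,
      lt f a b c d 3])
    (hG : Alt 4 G) (hr : ∀ w : List V3, w.length = 4 → G w.reverse = - G w)
    (hgen : ∀ a b c d, Gen (wd a b c d) ↔ ∀ m : V3, (∀ i < 4, L m (lt f a b c d i) = 0) → m = 0)
    (a b c d : ℕ) (ha : a < 81) (hb : b < 81) (hc : c < 81) (hd : d < 81) :
    (∀ t ∈ rq, tab 7 t a < 81 ∧ tab 7 t b < 81 ∧ tab 7 t c < 81 ∧ tab 7 t d < 81) ∧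
    (Gen (wd a b c d) → ∀ t ∈ rq, Gen (wd (tab 7 t a) (tab 7 t b) (tab 7 t c) (tab 7 t d))) ∧
    H (wd a b c d) + (rq.map fun t =>
      H (wd (tab 7 t a) (tab 7 t b) (tab 7 t c) (tab 7 t d))).sum = 0 := by
  have hlt : ∀ t p, R f t p → ∀ i < 4, lt f (tab 7 t a) (tab 7 t b) (tab 7 t c) (tab 7 t d) i =
      lt f a b c d (nth 0 p i) := by
    intro t p hR i hi
    unfold lt
    rw [(hR a ha).2 i hi, (hR b hb).2 i hi, (hR c hc).2 i hi, (hR d hd).2 i hi]
  refine ⟨?_, ?_, ?_⟩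
  · intro t ht
    obtain ⟨p, -, hR⟩ := okl_mem rq _ hf t ht
    exact ⟨(hR a ha).1, (hR b hb).1, (hR c hc).1, (hR d hd).1⟩
  · intro hg t ht
    obtain ⟨p, hp, hR⟩ := okl_mem rq _ hf t ht
    rw [hgen] at hg ⊢
    intro m hm
    refine hg m fun k hk => ?_
    obtain ⟨i, hi, hik⟩ := (chkP q hq p hp).2 k hk
    rw [← hik, ← hlt t p hR i hi]
    exact hm i hi
  · have h1 : rq.map (fun t => H (wd (tab 7 t a) (tab 7 t b) (tab 7 t c) (tab 7 t d))) =
        (nth [] perms q).map fun p => G [lt f a b c d (nth 0 p 0), lt f a b c d (nth 0 p 1),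
          lt f a b c d (nth 0 p 2), lt f a b c d (nth 0 p 3)] := by
      refine okl_map _ _ ?_ rq _ hf
      intro t p hR
      rw [hGH, hlt t p hR 0 (by norm_num), hlt t p hR 1 (by norm_num), hlt t p hR 2 (by norm_num),
        hlt t p hR 3 (by norm_num)]
    rw [h1, hGH]
    exact rel hG hr (lt f a b c d) q hq

end Row962

open Row962 in
theorem sRow : SRow := by
  intro M _ _ H hH q hq a b c d ha hb hc hd
  rcases lt_or_ge q 11 with h | h
  · exact Row962.main dk (nth [] rows q) q h (allN_spec 11 _ chkX q h) H H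
      (fun a b c d => by rw [wd_eq]) (altX hH) (T3odd.revX hH) gen_X a b c d ha hb hc hd
  · have h' : q - 11 < 11 := by omega
    have e : Nat.add (q - 11) 11 = q := by
      show q - 11 + 11 = q
      omega
    have h1 := allN_spec 11 _ chkY (q - 11) h'
    simp only [e] at h1
    exact Row962.main yk (nth [] rows q) (q - 11) h' h1 (fun w => H (ps 0 w)) H
      (fun a b c d => by rw [wd_ps]) hH.2 (T3odd.revY hH) gen_Y a b c d ha hb hc hd

end Pool.Agent.H492.CT
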