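import Pool.Agent.H492.CT.Chk

/-!
# Soundness of the certificate checker in depth four modulo three

The proof of `SSound`: every class which is not degenerate has the value given by the vector in the table (induction on
the order), the closing relations give linear relations between the values of the temporary classes, and the
combinations give that these values are zero.
-/

set_option autoImplicit false

namespace Pool.Agent.H492.CT

open Pool.Agent.H492.UB

namespace SnH729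

/-! ### Boolean conditions -/

theorem cond_ff {b y : Bool} (h : cond b y false = true) : b = true ∧ y = true := by
  cases b
  · exact absurd h Bool.false_ne_true
  · exact ⟨rfl, h⟩

theorem cond_nf {b y : Bool} (h : cond b false y = true) : b = false ∧ y = true := by
  cases b
  · exact ⟨rfl, h⟩
  · exact absurd h Bool.false_ne_true

theorem beq_t {m n : ℕ} (h : Nat.beq m n = true) : m = n := Nat.eq_of_beq_eq_true h

theorem beq_f {m n : ℕ} (h : Nat.beq m n = false) : m ≠ n := Nat.ne_of_beq_eq_false h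

theorem blt_t {m n : ℕ} (h : Nat.blt m n = true) : m < n := Nat.le_of_ble_eq_true h

theorem allN_t (f : ℕ → Bool) : ∀ n : ℕ, allN n f = true → ∀ i < n, f i = true := by
  intro n
  induction n with
  | zero => intro _ i hi; exact absurd hi (Nat.not_lt_zero i)
  | succ n ih =>
    intro h i hi
    have h1 := cond_ff (b := f n) (y := allN n f) h
    rcases Nat.lt_succ_iff_lt_or_eq.1 hi with h2 | h2
    · exact ih h1.2 i h2
    · exact h2 ▸ h1.1

theorem mem_t (i : ℕ) : ∀ l : List ℕ, mem i l = true → i ∈ l := by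
  intro l
  induction l with
  | nil => intro h; exact absurd h Bool.false_ne_true
  | cons x l ih =>
    intro h
    have h1 : cond (Nat.beq x i) true (mem i l) = true := h
    cases hx : Nat.beq x i with
    | true => exact List.mem_cons.2 (Or.inl (beq_t hx).symm)
    | false =>
      rw [hx] at h1
      exact List.mem_cons.2 (Or.inr (ih h1))

/-! ### vectors -/

variable {M : Type} [AddCommGroup M] [Module (ZMod 3) M]

theorem sm_mono {B C : ℕ} (h : B ≤ C) : ∀ (n v : ℕ), Sm B n v → Sm C n v := by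
  intro n
  induction n with
  | zero => intro v _; trivial
  | succ n ih => intro v hv; exact ⟨hv.1.trans h, ih _ hv.2⟩

theorem VS_none : ∀ (n : ℕ) (τ : ℕ → M) (v : ℕ), (∀ t < n, τ t = 0) → VS n τ v = 0 := by
  intro n
  induction n with
  | zero => intro τ v _; rfl
  | succ n ih =>
    intro τ v h
    have h1 : VS (n + 1) τ v
        = ((v % 256 : ℕ) : ZMod 3) • τ 0 + VS n (fun t => τ (t + 1)) (v / 256) := rfl
    rw [h1, h 0 (Nat.succ_pos n), smul_zero, zero_add]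
    exact ih _ _ (fun t ht => h (t + 1) (Nat.succ_lt_succ ht))

theorem cast_zero {n : ℕ} (h : n % 3 = 0) : ((n : ℕ) : ZMod 3) = 0 :=
  (ZMod.natCast_eq_zero_iff n 3).2 (Nat.dvd_of_mod_eq_zero h)

theorem cast_ne {n : ℕ} (h : n % 3 ≠ 0) : ((n : ℕ) : ZMod 3) ≠ 0 := fun h1 =>
  h (Nat.mod_eq_zero_of_dvd ((ZMod.natCast_eq_zero_iff n 3).1 h1))

/-- cancellation of a number which is not divisible by three -/
theorem canc {n : ℕ} (h : n % 3 ≠ 0) {x : M} (hx : ((n : ℕ) : ZMod 3) • x = 0) : x = 0 := by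
  have : Fact (Nat.Prime 3) := ⟨Nat.prime_three⟩
  have h1 : (((n : ℕ) : ZMod 3)⁻¹ * ((n : ℕ) : ZMod 3)) = 1 := inv_mul_cancel₀ (cast_ne h)
  calc x = (1 : ZMod 3) • x := (one_smul _ _).symm
    _ = ((n : ℕ) : ZMod 3)⁻¹ • (((n : ℕ) : ZMod 3) • x) := by rw [← h1, mul_smul]
    _ = 0 := by rw [hx, smul_zero]

/-! ### pending terms -/

/-- the sum of the pending terms -/
def PS (F : ℕ → M) (l : List (ℕ × ℕ)) : M := (l.map fun p => ((p.2 : ℕ) : ZMod 3) • F p.1).sum

theorem PS_cons (F : ℕ → M) (p : ℕ × ℕ) (l : List (ℕ × ℕ)) :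
    PS F (p :: l) = ((p.2 : ℕ) : ZMod 3) • F p.1 + PS F l := by
  unfold PS
  rw [List.map_cons, List.sum_cons]

theorem psum_cons (j : ℕ) (p : ℕ × ℕ) (l : List (ℕ × ℕ)) :
    psum j (p :: l) = (if p.1 = j then p.2 else 0) + psum j l := by
  have h : psum j (p :: l) = cond (Nat.beq p.1 j) (Nat.add p.2 (psum j l)) (psum j l) := rfl
  rw [h]
  cases hp : Nat.beq p.1 j with
  | true => rw [if_pos (beq_t hp)]; rfl
  | false => rw [if_neg (beq_f hp), Nat.zero_add]; rfl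

theorem PS_eq (F : ℕ → M) (J : Finset ℕ) : ∀ l : List (ℕ × ℕ), (∀ p ∈ l, p.1 ∈ J) →
    PS F l = ∑ j ∈ J, ((psum j l : ℕ) : ZMod 3) • F j := by
  intro l
  induction l with
  | nil =>
    intro _
    have h : ∀ j ∈ J, ((psum j [] : ℕ) : ZMod 3) • F j = 0 := by
      intro j _
      have h1 : psum j [] = 0 := rfl
      rw [h1, Nat.cast_zero, zero_smul]
    rw [Finset.sum_eq_zero h]
    rfl
  | cons p l ih =>
    intro h
    rw [PS_cons, ih (fun q hq => h q (List.mem_cons_of_mem _ hq))]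
    have h1 : ∀ j ∈ J, ((psum j (p :: l) : ℕ) : ZMod 3) • F j
        = (if p.1 = j then ((p.2 : ℕ) : ZMod 3) • F p.1 else 0)
          + ((psum j l : ℕ) : ZMod 3) • F j := by
      intro j _
      rw [psum_cons, Nat.cast_add, add_smul]
      by_cases hj : p.1 = j
      · rw [if_pos hj, if_pos hj, hj]
      · rw [if_neg hj, if_neg hj, Nat.cast_zero, zero_smul]
    rw [Finset.sum_congr rfl h1, Finset.sum_add_distrib, Finset.sum_ite_eq,
      if_pos (h p (List.mem_cons_self))]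

theorem chkp_t (pend : List (ℕ × ℕ)) : ∀ l : List (ℕ × ℕ), chkp pend l = true →
    ∀ p ∈ l, psum p.1 pend % 3 = 0 := by
  intro l
  induction l with
  | nil => intro _ p hp; exact absurd hp List.not_mem_nil
  | cons q l ih =>
    intro h p hp
    have h1 := cond_ff (b := Nat.beq (Nat.mod (psum q.1 pend) 3) 0) (y := chkp pend l) h
    rcases List.mem_cons.1 hp with h2 | h2
    · rw [h2]; exact beq_t h1.1
    · exact ih h1.2 p h2

theorem PS_zero (F : ℕ → M) (l : List (ℕ × ℕ)) (h : chkp l l = true) : PS F l = 0 := by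
  rw [PS_eq F (l.map Prod.fst).toFinset l
    (fun p hp => List.mem_toFinset.2 (List.mem_map_of_mem hp))]
  refine Finset.sum_eq_zero fun j hj => ?_
  obtain ⟨p, hp, hpj⟩ := List.mem_map.1 (List.mem_toFinset.1 hj)
  rw [← hpj, cast_zero (chkp_t l l h p hp), zero_smul]

/-! ### the relations -/

theorem canEx (X0 X1 X2 X3 a b c d : ℕ) : ∃ rd i s : ℕ, ∀ (α : Type) (k : ℕ → ℕ → ℕ → α),
    can X0 X1 X2 X3 a b c d k = k rd i s := ⟨_, _, _, fun _ _ => rfl⟩

/-- the claim for a class -/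
def Cl (w : ℕ) (T : ℕ → ℕ) (nT : ℕ) (H : List V3 → M) (τ : ℕ → M) (rd i : ℕ) : Prop :=
  H (repi rd i) = VS nT τ (Nat.shiftRight (tab w (T rd) i) 20) ∧
    Sm 3 nT (Nat.shiftRight (tab w (T rd) i) 20)

/-- the term of a relation -/
def trm (H : List V3 → M) (a b c d t : ℕ) : M := H (wd (tab 7 t a) (tab 7 t b) (tab 7 t c) (tab 7 t d))

/-- the conditions for a term -/
def Gd (a b c d t : ℕ) : Prop :=
  (tab 7 t a < 81 ∧ tab 7 t b < 81 ∧ tab 7 t c < 81 ∧ tab 7 t d < 81) ∧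
    Gen (wd (tab 7 t a) (tab 7 t b) (tab 7 t c) (tab 7 t d))

theorem oth_cons (X0 X1 X2 X3 w : ℕ) (T : ℕ → ℕ) (M' o idx v a b c d t : ℕ) (l : List ℕ)
    (acc net : ℕ) (pend : List (ℕ × ℕ)) :
    oth X0 X1 X2 X3 w T M' o idx v a b c d (t :: l) acc net pend =
      can X0 X1 X2 X3 (tab 7 t a) (tab 7 t b) (tab 7 t c) (tab 7 t d) fun rd i s =>
        cond (Nat.blt (Nat.land (tab w (T rd) i) 32767) o)
          (oth X0 X1 X2 X3 w T M' o idx v a b c d l
            (acc + (s + 1) * (Nat.shiftRight (tab w (T rd) i) 20)) net pend)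
          (cond (Nat.beq (rd * 676 + i) idx)
            (oth X0 X1 X2 X3 w T M' o idx v a b c d l acc (net + (s + 1)) pend)
            (oth X0 X1 X2 X3 w T M' o idx v a b c d l acc net ((rd * 676 + i, s + 1) :: pend))) := rfl

theorem oth_nil (X0 X1 X2 X3 w : ℕ) (T : ℕ → ℕ) (M' o idx v a b c d : ℕ)
    (acc net : ℕ) (pend : List (ℕ × ℕ)) :
    oth X0 X1 X2 X3 w T M' o idx v a b c d [] acc net pend =
      cond (Nat.beq (Nat.mod net 3) 0) false
      (cond (m3 M' (acc + net * v)) (chkp pend pend) false) := rfl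

theorem repj_mk (rd i : ℕ) (hi : i < 676) : repj (rd * 676 + i) = repi rd i := by
  unfold repj
  rw [show (rd * 676 + i) / 676 = rd by omega, show (rd * 676 + i) % 676 = i by omega]

theorem othS (h1 : SCan) (h5 : SVec) (X : Fin 4 → ℕ) (w : ℕ) (T : ℕ → ℕ) (nT : ℕ)
    (H : List V3 → M) (τ : ℕ → M) (hI : Inv X H) (o idx v a b c d : ℕ) (hv : Sm 3 nT v)
    (IH : ∀ rd i : ℕ, rd < 40 → i < 676 → NDg rd (i / 52) (i / 4 % 13) (i % 4) →
      Nat.land (tab w (T rd) i) 32767 < o → Cl w T nT H τ rd i) :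
    ∀ l : List ℕ, (∀ t ∈ l, Gd a b c d t) → ∀ (acc net : ℕ) (pend : List (ℕ × ℕ)) (B : ℕ),
      Sm B nT acc → B + 12 * l.length + 3 * net < 256 →
      oth (X 0) (X 1) (X 2) (X 3) w T (bytes 192 nT) o idx v a b c d l acc net pend = true →
      VS nT τ acc + ((net : ℕ) : ZMod 3) • H (repj idx) + PS (fun j => H (repj j)) pend
        + (l.map (trm H a b c d)).sum = 0 → H (repj idx) = VS nT τ v := by
  intro l
  induction l with
  | nil =>
    intro _ acc net pend B hacc hB ho hs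
    rw [oth_nil] at ho
    obtain ⟨hn, ho2⟩ := cond_nf ho
    obtain ⟨hm, hp⟩ := cond_ff ho2
    have hn1 : net % 3 ≠ 0 := beq_f hn
    have hl : ([] : List ℕ).length = 0 := rfl
    rw [hl] at hB
    obtain ⟨hA, hS, hM, _, _, _⟩ := h5 M nT τ
    obtain ⟨s1, s2⟩ := hS v net 3 hv (by omega)
    obtain ⟨_, s4⟩ := hA acc (net * v) B (3 * net) hacc s1 (by omega)
    have s5 := hM _ hm
    rw [s4, s2] at s5
    rw [PS_zero _ _ hp, List.map_nil, List.sum_nil, add_zero, add_zero] at hs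
    have s6 : ((net : ℕ) : ZMod 3) • (H (repj idx) - VS nT τ v) = 0 := by
      rw [smul_sub, sub_eq_zero]
      exact add_left_cancel (hs.trans s5.symm)
    exact sub_eq_zero.1 (canc hn1 s6)
  | cons t l ih =>
    intro hl acc net pend B hacc hB ho hs
    obtain ⟨⟨ha, hb, hc, hd⟩, hg⟩ := hl t List.mem_cons_self
    have hl' : ∀ t' ∈ l, Gd a b c d t' := fun t' ht' => hl t' (List.mem_cons_of_mem _ ht')
    have hlen : (t :: l).length = l.length + 1 := rfl
    rw [hlen] at hB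
    obtain ⟨rd, i, s, hk⟩ := canEx (X 0) (X 1) (X 2) (X 3) (tab 7 t a) (tab 7 t b) (tab 7 t c)
      (tab 7 t d)
    have hc1 := h1 M X H hI _ _ _ _ ha hb hc hd hg
    rw [hk] at hc1
    obtain ⟨hrd, hi, hs2, hnd, hH⟩ := hc1
    rw [oth_cons, hk] at ho
    rw [List.map_cons, List.sum_cons] at hs
    have hT : trm H a b c d t = ((s + 1 : ℕ) : ZMod 3) • H (repi rd i) := hH
    rw [hT] at hs
    obtain ⟨hA, hS, _, _, _, _⟩ := h5 M nT τ
    cases hlt : Nat.blt (Nat.land (tab w (T rd) i) 32767) o with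
    | true =>
      rw [hlt] at ho
      obtain ⟨c1, c2⟩ := IH rd i hrd hi hnd (blt_t hlt)
      obtain ⟨s1, s2⟩ := hS _ (s + 1) 3 c2 (by omega)
      have s1' := sm_mono (show 3 * (s + 1) ≤ 6 by omega) _ _ s1
      obtain ⟨s3, s4⟩ := hA acc _ B 6 hacc s1' (by omega)
      refine ih hl' _ net pend (B + 6) s3 (by omega) ho ?_
      rw [s4, s2, ← c1, ← hs]
      abel
    | false =>
      rw [hlt] at ho
      cases hid : Nat.beq (rd * 676 + i) idx with
      | true =>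
        rw [hid] at ho
        refine ih hl' acc (net + (s + 1)) pend B hacc (by omega) ho ?_
        have e1 : repi rd i = repj idx := by rw [← beq_t hid, repj_mk rd i hi]
        rw [e1] at hs
        rw [Nat.cast_add, add_smul, ← hs]
        abel
      | false =>
        rw [hid] at ho
        refine ih hl' acc net _ B hacc (by omega) ho ?_
        rw [PS_cons]
        show VS nT τ acc + ((net : ℕ) : ZMod 3) • H (repj idx)
          + (((s + 1 : ℕ) : ZMod 3) • H (repj (rd * 676 + i)) + PS (fun j => H (repj j)) pend)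
          + (l.map (trm H a b c d)).sum = 0
        rw [repj_mk rd i hi, ← hs]
        abel

theorem sumv_cons (X0 X1 X2 X3 w : ℕ) (T : ℕ → ℕ) (a b c d t : ℕ) (l : List ℕ) (acc : ℕ) :
    sumv X0 X1 X2 X3 w T a b c d (t :: l) acc =
      can X0 X1 X2 X3 (tab 7 t a) (tab 7 t b) (tab 7 t c) (tab 7 t d) fun rd i s =>
        sumv X0 X1 X2 X3 w T a b c d l
          (acc + (s + 1) * (Nat.shiftRight (tab w (T rd) i) 20)) := rfl

theorem sumvS (h1 : SCan) (h5 : SVec) (X : Fin 4 → ℕ) (w : ℕ) (T : ℕ → ℕ) (nT : ℕ)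
    (H : List V3 → M) (τ : ℕ → M) (hI : Inv X H) (a b c d : ℕ)
    (IH : ∀ rd i : ℕ, rd < 40 → i < 676 → NDg rd (i / 52) (i / 4 % 13) (i % 4) →
      Cl w T nT H τ rd i) :
    ∀ l : List ℕ, (∀ t ∈ l, Gd a b c d t) → ∀ (acc : ℕ) (B : ℕ),
      Sm B nT acc → B + 6 * l.length < 256 →
      VS nT τ (sumv (X 0) (X 1) (X 2) (X 3) w T a b c d l acc)
        = VS nT τ acc + (l.map (trm H a b c d)).sum := by
  intro l
  induction l with
  | nil =>
    intro _ acc B _ _
    rw [List.map_nil, List.sum_nil, add_zero]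
    rfl
  | cons t l ih =>
    intro hl acc B hacc hB
    obtain ⟨⟨ha, hb, hc, hd⟩, hg⟩ := hl t List.mem_cons_self
    have hl' : ∀ t' ∈ l, Gd a b c d t' := fun t' ht' => hl t' (List.mem_cons_of_mem _ ht')
    have hlen : (t :: l).length = l.length + 1 := rfl
    rw [hlen] at hB
    obtain ⟨rd, i, s, hk⟩ := canEx (X 0) (X 1) (X 2) (X 3) (tab 7 t a) (tab 7 t b) (tab 7 t c)
      (tab 7 t d)
    have hc1 := h1 M X H hI _ _ _ _ ha hb hc hd hg
    rw [hk] at hc1
    obtain ⟨hrd, hi, hs2, hnd, hH⟩ := hc1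
    rw [sumv_cons, hk, List.map_cons, List.sum_cons]
    have hT : trm H a b c d t = ((s + 1 : ℕ) : ZMod 3) • H (repi rd i) := hH
    rw [hT]
    obtain ⟨hA, hS, _, _, _, _⟩ := h5 M nT τ
    obtain ⟨c1, c2⟩ := IH rd i hrd hi hnd
    obtain ⟨s1, s2⟩ := hS _ (s + 1) 3 c2 (by omega)
    have s1' := sm_mono (show 3 * (s + 1) ≤ 6 by omega) _ _ s1
    obtain ⟨s3, s4⟩ := hA acc _ B 6 hacc s1' (by omega)
    rw [ih hl' _ (B + 6) s3 (by omega), s4, s2, ← c1, add_assoc]

/-! ### the lengths of the relations -/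

/-- all lengths are at most six -/
theorem rows_len : ∀ q < 22, (nth [] rows q).length ≤ 6 := by decide +kernel

/-! ### the classes -/

theorem entS (h1 : SCan) (h2 : SRow) (h4 : SGen) (h5 : SVec) (X : Fin 4 → ℕ) (w : ℕ) (T : ℕ → ℕ)
    (nT : ℕ) (Lx TI : List ℕ) (H : List V3 → M) (hBA : BA 4 H) (hI : Inv X H)
    (hL : ∀ j ∈ Lx, H (repj j) = 0) (rd i : ℕ) (hrd : rd < 40) (hi : i < 676)
    (hnd : NDg rd (i / 52) (i / 4 % 13) (i % 4))
    (he : ent (X 0) (X 1) (X 2) (X 3) w T nT (bytes 192 nT) (bytes 252 nT) Lx TI rd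
      (i / 52) (i / 4 % 13) (i % 4) = true)
    (IH : ∀ rd' i' : ℕ, rd' < 40 → i' < 676 → NDg rd' (i' / 52) (i' / 4 % 13) (i' % 4) →
      Nat.land (tab w (T rd') i') 32767 < Nat.land (tab w (T rd) i) 32767 →
      Cl w T nT H (fun t => H (repj (nth 0 TI t))) rd' i') :
    Cl w T nT H (fun t => H (repj (nth 0 TI t))) rd i := by
  have hii : (i / 52 * 13 + i / 4 % 13) * 4 + i % 4 = i := by omega
  have he1 : (cond (Nat.beq (Nat.land (tab 4 t2 ((rd * 13 + i / 52) * 81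
        + tab 7 tC (rd * 13 + i / 4 % 13))) 7) 4) true <|
      cond (Nat.beq (Nat.land (tab 4 t2 ((rd * 13 + i / 52) * 81
        + tab 7 tC (rd * 13 + i / 4 % 13))) 7) (i % 4)) true <|
      frc ((i / 52 * 13 + i / 4 % 13) * 4 + i % 4) fun i' =>
      frc (tab w (T rd) i') fun en =>
      frc (Nat.add (Nat.mul rd 676) i') fun idx =>
      frc (Nat.land en 32767) fun o =>
      frc (Nat.land (Nat.shiftRight en 15) 31) fun q =>
      frc (Nat.shiftRight en 20) fun v =>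
      cond (Nat.beq q 22) (cond (Nat.beq v 0) (mem idx Lx) false) <|
      cond (Nat.beq q 23) (cond (Nat.blt o nT)
        (cond (Nat.beq v (Nat.pow 256 o)) (Nat.beq (nth 0 TI o) idx) false) false) <|
      cond (Nat.blt q 22) (cond (Nat.beq (Nat.land v (bytes 252 nT)) 0)
        (frc (tab 7 tF (Nat.add (Nat.mul (Nat.add (Nat.mul rd 13) (i / 52)) 4) (i % 4))) fun a =>
          frc (tab 7 tC (Nat.add (Nat.mul rd 13) (i / 52))) fun c =>
          frc (tab 7 tD rd) fun d =>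
          oth (X 0) (X 1) (X 2) (X 3) w T (bytes 192 nT) o idx v a
            (tab 7 tC (rd * 13 + i / 4 % 13)) c d (nth [] rows q) 0 1 []) false) false) = true := he
  obtain ⟨nd1, nd2⟩ := hnd
  have b1 : Nat.beq (Nat.land (tab 4 t2 ((rd * 13 + i / 52) * 81
        + tab 7 tC (rd * 13 + i / 4 % 13))) 7) 4 = false := by
    cases hb : Nat.beq (Nat.land (tab 4 t2 ((rd * 13 + i / 52) * 81
        + tab 7 tC (rd * 13 + i / 4 % 13))) 7) 4 with
    | false => rfl
    | true => exact absurd (beq_t hb) nd1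
  have b2 : Nat.beq (Nat.land (tab 4 t2 ((rd * 13 + i / 52) * 81
        + tab 7 tC (rd * 13 + i / 4 % 13))) 7) (i % 4) = false := by
    cases hb : Nat.beq (Nat.land (tab 4 t2 ((rd * 13 + i / 52) * 81
        + tab 7 tC (rd * 13 + i / 4 % 13))) 7) (i % 4) with
    | false => rfl
    | true => exact absurd (beq_t hb) nd2
  rw [b1, b2, hii] at he1
  have he2 : (cond (Nat.beq (Nat.land (Nat.shiftRight (tab w (T rd) i) 15) 31) 22)
        (cond (Nat.beq (Nat.shiftRight (tab w (T rd) i) 20) 0) (mem (rd * 676 + i) Lx) false) <|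
      cond (Nat.beq (Nat.land (Nat.shiftRight (tab w (T rd) i) 15) 31) 23)
        (cond (Nat.blt (Nat.land (tab w (T rd) i) 32767) nT)
        (cond (Nat.beq (Nat.shiftRight (tab w (T rd) i) 20)
          (256 ^ (Nat.land (tab w (T rd) i) 32767)))
          (Nat.beq (nth 0 TI (Nat.land (tab w (T rd) i) 32767)) (rd * 676 + i)) false) false) <|
      cond (Nat.blt (Nat.land (Nat.shiftRight (tab w (T rd) i) 15) 31) 22)
        (cond (Nat.beq (Nat.land (Nat.shiftRight (tab w (T rd) i) 20) (bytes 252 nT)) 0)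
        (oth (X 0) (X 1) (X 2) (X 3) w T (bytes 192 nT) (Nat.land (tab w (T rd) i) 32767)
            (rd * 676 + i) (Nat.shiftRight (tab w (T rd) i) 20)
            (tab 7 tF ((rd * 13 + i / 52) * 4 + i % 4))
            (tab 7 tC (rd * 13 + i / 4 % 13)) (tab 7 tC (rd * 13 + i / 52)) (tab 7 tD rd)
            (nth [] rows (Nat.land (Nat.shiftRight (tab w (T rd) i) 15) 31)) 0 1 []) false)
        false) = true := he1
  clear he1 he b1 b2
  unfold Cl
  revert he2 IH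
  generalize Nat.land (tab w (T rd) i) 32767 = o
  generalize Nat.shiftRight (tab w (T rd) i) 20 = v
  generalize Nat.land (Nat.shiftRight (tab w (T rd) i) 15) 31 = q
  intro IH he2
  obtain ⟨_, _, _, hV4, hV5, hV6⟩ := h5 M nT (fun t => H (repj (nth 0 TI t)))
  cases hq2 : Nat.beq q 22 with
  | true =>
    rw [hq2] at he2
    obtain ⟨k1, k2⟩ := cond_ff he2
    rw [beq_t k1, hV6.1, ← repj_mk rd i hi]
    exact ⟨hL _ (mem_t _ _ k2), sm_mono (Nat.zero_le 3) _ _ hV6.2⟩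
  | false =>
    rw [hq2] at he2
    cases hq3 : Nat.beq q 23 with
    | true =>
      rw [hq3] at he2
      obtain ⟨k1, k2⟩ := cond_ff (show cond (Nat.blt o nT)
        (cond (Nat.beq v (256 ^ o)) (Nat.beq (nth 0 TI o) (rd * 676 + i)) false) false = true
          from he2)
      obtain ⟨k3, k4⟩ := cond_ff k2
      obtain ⟨k5, k6⟩ := hV5 o (blt_t k1)
      rw [beq_t k3, k5]
      refine ⟨?_, sm_mono (by norm_num) _ _ k6⟩
      show H (repi rd i) = H (repj (nth 0 TI o))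
      rw [beq_t k4, repj_mk rd i hi]
    | false =>
      rw [hq3] at he2
      obtain ⟨k1, k2⟩ := cond_ff (show cond (Nat.blt q 22) _ false = true from he2)
      obtain ⟨k3, k4⟩ := cond_ff k2
      have hv : Sm 3 nT v := hV4 v (beq_t k3)
      refine ⟨?_, hv⟩
      have hq : q < 22 := blt_t k1
      obtain ⟨g1, g2, g3, g4, g5⟩ := h4 rd (i / 52) (i / 4 % 13) (i % 4) hrd (by omega) (by omega)
        (by omega)
      have g5' := g5 ⟨nd1, nd2⟩
      obtain ⟨r1, r2, r3⟩ := h2 M H hBA q hq _ _ _ _ g1 g2 g3 g4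
      rw [← repj_mk rd i hi]
      refine othS h1 h5 X w T nT H _ hI o (rd * 676 + i) v _ _ _ _ hv IH (nth [] rows q)
        (fun t ht => ⟨r1 t ht, r2 g5' t ht⟩) 0 1 [] 0 hV6.2 ?_ k4 ?_
      · have := rows_len q hq
        omega
      · rw [hV6.1, Nat.cast_one, one_smul, zero_add, repj_mk rd i hi]
        have p0 : PS (fun j => H (repj j)) [] = 0 := rfl
        rw [p0, add_zero]
        exact r3

/-- the claim for all classes -/
theorem allCl (h1 : SCan) (h2 : SRow) (h4 : SGen) (h5 : SVec) (X : Fin 4 → ℕ) (w : ℕ) (T : ℕ → ℕ)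
    (nT : ℕ) (Lx TI : List ℕ)
    (hb : ∀ rd < 40, blk (X 0) (X 1) (X 2) (X 3) w T nT (bytes 192 nT) (bytes 252 nT) Lx TI rd
      = true)
    (H : List V3 → M) (hBA : BA 4 H) (hI : Inv X H) (hL : ∀ j ∈ Lx, H (repj j) = 0) :
    ∀ o rd i : ℕ, Nat.land (tab w (T rd) i) 32767 = o → rd < 40 → i < 676 →
      NDg rd (i / 52) (i / 4 % 13) (i % 4) →
      Cl w T nT H (fun t => H (repj (nth 0 TI t))) rd i := by
  intro o
  induction o using Nat.strong_induction_on with
  | _ o ih =>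
    intro rd i ho hrd hi hnd
    have e1 := allN_t _ 13 (hb rd hrd) (i / 52) (by omega)
    have e2 := allN_t _ 13 e1 (i / 4 % 13) (by omega)
    have e3 := allN_t _ 4 e2 (i % 4) (by omega)
    refine entS h1 h2 h4 h5 X w T nT Lx TI H hBA hI hL rd i hrd hi hnd e3 ?_
    intro rd' i' hrd' hi' hnd' hlt
    exact ih _ (ho ▸ hlt) rd' i' rfl hrd' hi' hnd'

/-! ### closing relations -/

theorem cloS (h1 : SCan) (h2 : SRow) (h4 : SGen) (h5 : SVec) (X : Fin 4 → ℕ) (w : ℕ) (T : ℕ → ℕ)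
    (nT : ℕ) (H : List V3 → M) (hBA : BA 4 H) (hI : Inv X H) (τ : ℕ → M)
    (IH : ∀ rd i : ℕ, rd < 40 → i < 676 → NDg rd (i / 52) (i / 4 % 13) (i % 4) →
      Cl w T nT H τ rd i) (rd r2 r1 r0 q r : ℕ) (hq : q < 22)
    (hc : clo (X 0) (X 1) (X 2) (X 3) w T (bytes 192 nT) (bytes 252 nT) rd r2 r1 r0 q r = true) :
    VS nT τ r = 0 ∧ Sm 3 nT r := by
  have hc1 : (cond (Nat.beq (Nat.land (tab 4 t2 ((rd * 13 + r2) * 81
        + tab 7 tC (rd * 13 + r1))) 7) 4) false <|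
      cond (Nat.beq (Nat.land (tab 4 t2 ((rd * 13 + r2) * 81
        + tab 7 tC (rd * 13 + r1))) 7) r0) false <|
      cond (Nat.blt rd 40) (cond (Nat.blt r2 13) (cond (Nat.blt r1 13) (cond (Nat.blt r0 4)
      (cond (Nat.beq (Nat.land r (bytes 252 nT)) 0)
        (m3 (bytes 192 nT) (sumv (X 0) (X 1) (X 2) (X 3) w T (tab 7 tF ((rd * 13 + r2) * 4 + r0))
          (tab 7 tC (rd * 13 + r1)) (tab 7 tC (rd * 13 + r2)) (tab 7 tD rd) (nth [] rows q)
          (Nat.shiftRight (tab w (T rd) ((r2 * 13 + r1) * 4 + r0)) 20 + 2 * r))) false)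
      false) false) false) false) = true := hc
  obtain ⟨k1, hc2⟩ := cond_nf hc1
  obtain ⟨k2, hc3⟩ := cond_nf hc2
  obtain ⟨k3, hc4⟩ := cond_ff hc3
  obtain ⟨k4, hc5⟩ := cond_ff hc4
  obtain ⟨k5, hc6⟩ := cond_ff hc5
  obtain ⟨k6, hc7⟩ := cond_ff hc6
  obtain ⟨k7, k8⟩ := cond_ff hc7
  have hrd : rd < 40 := blt_t k3
  have hr2 : r2 < 13 := blt_t k4
  have hr1 : r1 < 13 := blt_t k5
  have hr0 : r0 < 4 := blt_t k6
  have hnd : NDg rd r2 r1 r0 := ⟨beq_f k1, beq_f k2⟩
  obtain ⟨hA, hS, hM, hV4, _, _⟩ := h5 M nT τ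
  have hr : Sm 3 nT r := hV4 r (beq_t k7)
  refine ⟨?_, hr⟩
  obtain ⟨g1, g2, g3, g4, g5⟩ := h4 rd r2 r1 r0 hrd hr2 hr1 hr0
  have g5' := g5 hnd
  obtain ⟨u1, u2, u3⟩ := h2 M H hBA q hq _ _ _ _ g1 g2 g3 g4
  have hi : (r2 * 13 + r1) * 4 + r0 < 676 := by omega
  have q1 : ((r2 * 13 + r1) * 4 + r0) / 52 = r2 := by omega
  have q2 : ((r2 * 13 + r1) * 4 + r0) / 4 % 13 = r1 := by omega
  have q3 : ((r2 * 13 + r1) * 4 + r0) % 4 = r0 := by omega
  obtain ⟨c1, c2⟩ := IH rd ((r2 * 13 + r1) * 4 + r0) hrd hi (by rw [q1, q2, q3]; exact hnd)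
  have e1 : repi rd ((r2 * 13 + r1) * 4 + r0) = repw rd r2 r1 r0 := by
    unfold repi
    rw [q1, q2, q3]
  rw [e1] at c1
  obtain ⟨s1, s2⟩ := hS r 2 3 hr (by norm_num)
  obtain ⟨s3, s4⟩ := hA _ _ 3 (3 * 2) c2 s1 (by norm_num)
  have hlen := rows_len q hq
  have s5 := sumvS h1 h5 X w T nT H τ hI _ _ _ _ IH (nth [] rows q)
    (fun t ht => ⟨u1 t ht, u2 g5' t ht⟩) _ (3 + 3 * 2) s3 (by omega)
  have s6 := hM _ k8
  rw [s5, s4, s2, ← c1] at s6
  have s7 : H (repw rd r2 r1 r0) + ((nth [] rows q).map (trm H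
      (tab 7 tF ((rd * 13 + r2) * 4 + r0)) (tab 7 tC (rd * 13 + r1)) (tab 7 tC (rd * 13 + r2))
      (tab 7 tD rd))).sum = 0 := u3
  have s8 : ((2 : ℕ) : ZMod 3) • VS nT τ r = 0 := by
    rw [add_right_comm, s7, zero_add] at s6
    exact s6
  exact canc (by norm_num) s8

theorem closS (h1 : SCan) (h2 : SRow) (h4 : SGen) (h5 : SVec) (X : Fin 4 → ℕ) (w : ℕ) (T : ℕ → ℕ)
    (nT : ℕ) (H : List V3 → M) (hBA : BA 4 H) (hI : Inv X H) (τ : ℕ → M)
    (IH : ∀ rd i : ℕ, rd < 40 → i < 676 → NDg rd (i / 52) (i / 4 % 13) (i % 4) →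
      Cl w T nT H τ rd i) :
    ∀ cl : List (ℕ × ℕ × ℕ × ℕ × ℕ × ℕ), (∀ t ∈ cl, t.2.2.2.2.1 < 22) →
    clos (X 0) (X 1) (X 2) (X 3) w T (bytes 192 nT) (bytes 252 nT) cl = true →
    ∀ r ∈ cl.map (fun p => p.2.2.2.2.2), VS nT τ r = 0 ∧ Sm 3 nT r := by
  intro cl
  induction cl with
  | nil => intro _ _ r hr; exact absurd hr List.not_mem_nil
  | cons p cl ih =>
    intro hq hc r hr
    obtain ⟨k1, k2⟩ := cond_ff (b := clo (X 0) (X 1) (X 2) (X 3) w T (bytes 192 nT) (bytes 252 nT)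
      p.1 p.2.1 p.2.2.1 p.2.2.2.1 p.2.2.2.2.1 p.2.2.2.2.2)
      (y := clos (X 0) (X 1) (X 2) (X 3) w T (bytes 192 nT) (bytes 252 nT) cl) hc
    rw [List.map_cons] at hr
    rcases List.mem_cons.1 hr with h | h
    · rw [h]
      exact cloS h1 h2 h4 h5 X w T nT H hBA hI τ IH _ _ _ _ _ _ (hq p List.mem_cons_self) k1
    · exact ih (fun t ht => hq t (List.mem_cons_of_mem _ ht)) k2 r h

/-! ### combinations -/

theorem small_t : ∀ cs : List ℕ, small cs = true → ∀ c ∈ cs, c ≤ 2 := by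
  intro cs
  induction cs with
  | nil => intro _ c hc; exact absurd hc List.not_mem_nil
  | cons x cs ih =>
    intro h c hc
    obtain ⟨k1, k2⟩ := cond_ff (b := Nat.ble x 2) (y := small cs) h
    rcases List.mem_cons.1 hc with h2 | h2
    · rw [h2]; exact Nat.le_of_ble_eq_true k1
    · exact ih k2 c h2

theorem dotS (h5 : SVec) (nT : ℕ) (τ : ℕ → M) : ∀ cs : List ℕ, (∀ c ∈ cs, c ≤ 2) →
    ∀ rs : List ℕ, (∀ r ∈ rs, VS nT τ r = 0 ∧ Sm 3 nT r) → rs.length ≤ 30 →
    VS nT τ (dot cs rs) = 0 ∧ Sm (6 * rs.length) nT (dot cs rs) := by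
  intro cs
  obtain ⟨hA, hS, _, _, _, hV6⟩ := h5 M nT τ
  induction cs with
  | nil => intro _ rs _ _; exact ⟨hV6.1, sm_mono (Nat.zero_le _) _ _ hV6.2⟩
  | cons c cs ih =>
    intro hc rs hr hl
    cases rs with
    | nil => exact ⟨hV6.1, sm_mono (Nat.zero_le _) _ _ hV6.2⟩
    | cons r rs =>
      have e : dot (c :: cs) (r :: rs) = c * r + dot cs rs := rfl
      have hlen : (r :: rs).length = rs.length + 1 := rfl
      rw [hlen] at hl
      obtain ⟨i1, i2⟩ := ih (fun x hx => hc x (List.mem_cons_of_mem _ hx)) rs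
        (fun x hx => hr x (List.mem_cons_of_mem _ hx)) (by omega)
      obtain ⟨j1, j2⟩ := hr r List.mem_cons_self
      have hc2 : c ≤ 2 := hc c List.mem_cons_self
      obtain ⟨s1, s2⟩ := hS r c 3 j2 (by omega)
      have s1' := sm_mono (show 3 * c ≤ 6 by omega) _ _ s1
      obtain ⟨s3, s4⟩ := hA _ _ 6 (6 * rs.length) s1' i2 (by omega)
      rw [e, hlen, s4, s2, j1, i1, smul_zero, add_zero]
      exact ⟨rfl, sm_mono (by omega) _ _ s3⟩

theorem combS (h5 : SVec) (nT : ℕ) (τ : ℕ → M) (rs : List ℕ) (co : List (List ℕ))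
    (hr : ∀ r ∈ rs, VS nT τ r = 0 ∧ Sm 3 nT r) (hl : rs.length ≤ 30)
    (hc : comb nT (bytes 192 nT) rs co = true) : ∀ t < nT, τ t = 0 := by
  intro t ht
  obtain ⟨k1, k2⟩ := cond_ff (allN_t _ nT hc t ht)
  obtain ⟨hA, hS, hM, _, hV5, _⟩ := h5 M nT τ
  obtain ⟨d1, d2⟩ := dotS h5 nT τ (nth [] co t) (small_t _ k1) rs hr hl
  obtain ⟨v1, v2⟩ := hV5 t ht
  obtain ⟨s1, s2⟩ := hS (256 ^ t) 2 1 v2 (by norm_num)
  obtain ⟨_, s4⟩ := hA _ _ (6 * rs.length) (1 * 2) d2 s1 (by omega)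
  have s5 := hM _ (show m3 (bytes 192 nT) (dot (nth [] co t) rs + 2 * 256 ^ t) = true from k2)
  rw [s4, d1, s2, v1, zero_add] at s5
  exact canc (by norm_num) s5

end SnH729

theorem sSound (h1 : SCan) (h2 : SRow) (h3 : SCode) (h4 : SGen) (h5 : SVec) : SSound := by
  intro X w T nT Lx TI cl co _ hq hlen hb hc hco M _ _ H hBA hI hL h hh
  have hall : ∀ rd i : ℕ, rd < 40 → i < 676 → NDg rd (i / 52) (i / 4 % 13) (i % 4) →
      SnH729.Cl w T nT H (fun t => H (repj (nth 0 TI t))) rd i := fun rd i hrd hi hnd =>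
    SnH729.allCl h1 h2 h4 h5 X w T nT Lx TI hb H hBA hI hL _ rd i rfl hrd hi hnd
  have hr := SnH729.closS h1 h2 h4 h5 X w T nT H hBA hI (fun t => H (repj (nth 0 TI t))) hall
    cl hq hc
  have hτ := SnH729.combS h5 nT (fun t => H (repj (nth 0 TI t))) (cl.map fun p => p.2.2.2.2.2) co
    hr (by rw [List.length_map]; exact hlen) hco
  obtain ⟨a, b, c, d, ha, hb', hc', hd, e, hg⟩ := h3 h hh
  obtain ⟨rd, i, s, hk⟩ := SnH729.canEx (X 0) (X 1) (X 2) (X 3) a b c d
  have hc1 := h1 M X H hI _ _ _ _ ha hb' hc' hd hg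
  rw [hk] at hc1
  obtain ⟨hrd, hi, _, hnd, hH⟩ := hc1
  rw [e, hH, (hall rd i hrd hi hnd).1, SnH729.VS_none nT _ _ hτ, smul_zero]

end Pool.Agent.H492.CT
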