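import Pool.Agent.H492.CT.K0
import Pool.Agent.H492.CT.K3
import Pool.Agent.H492.CT.K5
import Pool.Agent.H492.CT.K6
import Pool.Agent.H492.CT.K9
import Pool.Agent.H492.CT.K10
import Pool.Agent.H492.CT.K12
import Pool.Agent.H492.CT.K15
import Pool.Agent.H492.CT.Cert
import Pool.Agent.H492.CT.SRowPf
import Pool.Agent.H492.CT.CodePf
import Pool.Agent.H492.CT.SSoundPf
import Pool.Agent.H492.CT.SCanPf
import Pool.Agent.H492.UB.SNakPf
import Pool.Agent.H492.UB.SSep3Pf
import Pool.Agent.H492.UB.SCount3Pf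
import Pool.Agent.H492.UB.STransP
import Pool.Agent.H492.UB.SOddPf
import Pool.Agent.H492.UB.SDim

/-!
# The upper bound in depth four by reduction modulo three
-/

set_option autoImplicit false

namespace Pool.Agent.H492.CT

open Pool.Agent.H492.UB

theorem sSoundT : SSound := sSound sCan sRow sCode sGen sVec

theorem cert0 : CertT PA ∅ (C0.Lx.map repj) :=
  certT sSoundT ∅ ![0, 0, 0, 0] (by decide) 108 C0.T 11 C0.Lx C0.TI C0.cl C0.co (by norm_num) C0.klen.2.1
    C0.klen.1 C0.kall C0.kc C0.kb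

theorem cert3 : CertT PA {0, 1} (C3.Lx.map repj) :=
  certT sSoundT {0, 1} ![1, 1, 0, 0] (by decide) 148 C3.T 16 C3.Lx C3.TI C3.cl C3.co (by norm_num) C3.klen.2.1
    C3.klen.1 C3.kall C3.kc C3.kb

theorem cert5 : CertT PA {0, 2} (C5.Lx.map repj) :=
  certT sSoundT {0, 2} ![1, 0, 1, 0] (by decide) 140 C5.T 15 C5.Lx C5.TI C5.cl C5.co (by norm_num) C5.klen.2.1
    C5.klen.1 C5.kall C5.kc C5.kb

theorem cert6 : CertT PA {1, 2} (C6.Lx.map repj) :=
  certT sSoundT {1, 2} ![0, 1, 1, 0] (by decide) 100 C6.T 10 C6.Lx C6.TI C6.cl C6.co (by norm_num) C6.klen.2.1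
    C6.klen.1 C6.kall C6.kc C6.kb

theorem cert9 : CertT PA {0, 3} (C9.Lx.map repj) :=
  certT sSoundT {0, 3} ![1, 0, 0, 1] (by decide) 172 C9.T 19 C9.Lx C9.TI C9.cl C9.co (by norm_num) C9.klen.2.1
    C9.klen.1 C9.kall C9.kc C9.kb

theorem cert10 : CertT PA {1, 3} (C10.Lx.map repj) :=
  certT sSoundT {1, 3} ![0, 1, 0, 1] (by decide) 180 C10.T 20 C10.Lx C10.TI C10.cl C10.co (by norm_num) C10.klen.2.1
    C10.klen.1 C10.kall C10.kc C10.kb

theorem cert12 : CertT PA {2, 3} (C12.Lx.map repj) :=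
  certT sSoundT {2, 3} ![0, 0, 1, 1] (by decide) 124 C12.T 13 C12.Lx C12.TI C12.cl C12.co (by norm_num) C12.klen.2.1
    C12.klen.1 C12.kall C12.kc C12.kb

theorem cert15 : CertT PA {0, 1, 2, 3} (C15.Lx.map repj) :=
  certT sSoundT {0, 1, 2, 3} ![1, 1, 1, 1] (by decide) 100 C15.T 10 C15.Lx C15.TI C15.cl C15.co (by norm_num) C15.klen.2.1
    C15.klen.1 C15.kall C15.kc C15.kb

/-- the free words -/
noncomputable def Ls (χ : Finset (Fin 4)) : List (List V3) :=
  if χ = ∅ then C0.Lx.map repj else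
  if χ = {0, 1} then C3.Lx.map repj else
  if χ = {0, 2} then C5.Lx.map repj else
  if χ = {1, 2} then C6.Lx.map repj else
  if χ = {0, 3} then C9.Lx.map repj else
  if χ = {1, 3} then C10.Lx.map repj else
  if χ = {2, 3} then C12.Lx.map repj else
  if χ = {0, 1, 2, 3} then C15.Lx.map repj else
  []

theorem Ls_length (χ : Finset (Fin 4)) : ∀ t ∈ Ls χ, t.length = 4 := by
  intro t ht
  unfold Ls at ht
  split_ifs at ht
  all_goals first
    | (obtain ⟨j, _, rfl⟩ := List.mem_map.1 ht
       exact length_repj j)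
    | simp at ht

theorem even_cases : ∀ χ : Finset (Fin 4), Even χ.card →
    χ = ∅ ∨ χ = {0, 1} ∨ χ = {0, 2} ∨ χ = {1, 2} ∨ χ = {0, 3} ∨ χ = {1, 3} ∨ χ = {2, 3} ∨ χ = {0, 1, 2, 3} := by
  decide

theorem Ls_cert (χ : Finset (Fin 4)) (hχ : Even χ.card) : CertT PA χ (Ls χ) := by
  rcases even_cases χ hχ with rfl | rfl | rfl | rfl | rfl | rfl | rfl | rfl
  · have e : Ls ∅ = C0.Lx.map repj := by
      unfold Ls
      simp only [if_true]
    rw [e]
    exact cert0
  · have e : Ls {0, 1} = C3.Lx.map repj := by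
      unfold Ls
      simp only [if_neg (show ¬ (({0, 1} : Finset (Fin 4)) = ∅) by decide), if_true]
    rw [e]
    exact cert3
  · have e : Ls {0, 2} = C5.Lx.map repj := by
      unfold Ls
      simp only [if_neg (show ¬ (({0, 2} : Finset (Fin 4)) = ∅) by decide), if_neg (show ¬ (({0, 2} : Finset (Fin 4)) = {0, 1}) by decide), if_true]
    rw [e]
    exact cert5
  · have e : Ls {1, 2} = C6.Lx.map repj := by
      unfold Ls
      simp only [if_neg (show ¬ (({1, 2} : Finset (Fin 4)) = ∅) by decide), if_neg (show ¬ (({1, 2} : Finset (Fin 4)) = {0, 1}) by decide), if_neg (show ¬ (({1, 2} : Finset (Fin 4)) = {0, 2}) by decide), if_true]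
    rw [e]
    exact cert6
  · have e : Ls {0, 3} = C9.Lx.map repj := by
      unfold Ls
      simp only [if_neg (show ¬ (({0, 3} : Finset (Fin 4)) = ∅) by decide), if_neg (show ¬ (({0, 3} : Finset (Fin 4)) = {0, 1}) by decide), if_neg (show ¬ (({0, 3} : Finset (Fin 4)) = {0, 2}) by decide), if_neg (show ¬ (({0, 3} : Finset (Fin 4)) = {1, 2}) by decide), if_true]
    rw [e]
    exact cert9
  · have e : Ls {1, 3} = C10.Lx.map repj := by
      unfold Ls
      simp only [if_neg (show ¬ (({1, 3} : Finset (Fin 4)) = ∅) by decide), if_neg (show ¬ (({1, 3} : Finset (Fin 4)) = {0, 1}) by decide), if_neg (show ¬ (({1, 3} : Finset (Fin 4)) = {0, 2}) by decide), if_neg (show ¬ (({1, 3} : Finset (Fin 4)) = {1, 2}) by decide), if_neg (show ¬ (({1, 3} : Finset (Fin 4)) = {0, 3}) by decide), if_true]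
    rw [e]
    exact cert10
  · have e : Ls {2, 3} = C12.Lx.map repj := by
      unfold Ls
      simp only [if_neg (show ¬ (({2, 3} : Finset (Fin 4)) = ∅) by decide), if_neg (show ¬ (({2, 3} : Finset (Fin 4)) = {0, 1}) by decide), if_neg (show ¬ (({2, 3} : Finset (Fin 4)) = {0, 2}) by decide), if_neg (show ¬ (({2, 3} : Finset (Fin 4)) = {1, 2}) by decide), if_neg (show ¬ (({2, 3} : Finset (Fin 4)) = {0, 3}) by decide), if_neg (show ¬ (({2, 3} : Finset (Fin 4)) = {1, 3}) by decide), if_true]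
    rw [e]
    exact cert12
  · have e : Ls {0, 1, 2, 3} = C15.Lx.map repj := by
      unfold Ls
      simp only [if_neg (show ¬ (({0, 1, 2, 3} : Finset (Fin 4)) = ∅) by decide), if_neg (show ¬ (({0, 1, 2, 3} : Finset (Fin 4)) = {0, 1}) by decide), if_neg (show ¬ (({0, 1, 2, 3} : Finset (Fin 4)) = {0, 2}) by decide), if_neg (show ¬ (({0, 1, 2, 3} : Finset (Fin 4)) = {1, 2}) by decide), if_neg (show ¬ (({0, 1, 2, 3} : Finset (Fin 4)) = {0, 3}) by decide), if_neg (show ¬ (({0, 1, 2, 3} : Finset (Fin 4)) = {1, 3}) by decide), if_neg (show ¬ (({0, 1, 2, 3} : Finset (Fin 4)) = {2, 3}) by decide), if_true]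
    rw [e]
    exact cert15

theorem span3 : Span3 151065 := by
  have h := sNak PA (by decide) (by decide) Ls Ls_length Ls_cert
  have e1 : (Finset.univ.filter (fun χ : Finset (Fin 4) => Even χ.card)) =
      {∅, {0, 1}, {0, 2}, {1, 2}, {0, 3}, {1, 3}, {2, 3}, {0, 1, 2, 3}} := by decide
  have e2 : PA.card = 4 := by decide
  rw [e1, e2] at h
  have e3 : 3 ^ 4 * ∑ χ ∈ ({∅, {0, 1}, {0, 2}, {1, 2}, {0, 3}, {1, 3}, {2, 3}, {0, 1, 2, 3}} : Finset (Finset (Fin 4))), (Ls χ).length = 151065 := by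
    have l : (Ls ∅).length = 196 ∧ (Ls {0, 1}).length = 219 ∧ (Ls {0, 2}).length = 230 ∧ (Ls {1, 2}).length = 219 ∧ (Ls {0, 3}).length = 250 ∧ (Ls {1, 3}).length = 247 ∧ (Ls {2, 3}).length = 249 ∧ (Ls {0, 1, 2, 3}).length = 255 := by
      refine ⟨?_, ?_, ?_, ?_, ?_, ?_, ?_, ?_⟩
      · have e : Ls ∅ = C0.Lx.map repj := by
          unfold Ls
          simp only [if_true]
        rw [e, List.length_map]
        exact C0.klen.2.2
      · have e : Ls {0, 1} = C3.Lx.map repj := by
          unfold Ls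
          simp only [if_neg (show ¬ (({0, 1} : Finset (Fin 4)) = ∅) by decide), if_true]
        rw [e, List.length_map]
        exact C3.klen.2.2
      · have e : Ls {0, 2} = C5.Lx.map repj := by
          unfold Ls
          simp only [if_neg (show ¬ (({0, 2} : Finset (Fin 4)) = ∅) by decide), if_neg (show ¬ (({0, 2} : Finset (Fin 4)) = {0, 1}) by decide), if_true]
        rw [e, List.length_map]
        exact C5.klen.2.2
      · have e : Ls {1, 2} = C6.Lx.map repj := by
          unfold Ls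
          simp only [if_neg (show ¬ (({1, 2} : Finset (Fin 4)) = ∅) by decide), if_neg (show ¬ (({1, 2} : Finset (Fin 4)) = {0, 1}) by decide), if_neg (show ¬ (({1, 2} : Finset (Fin 4)) = {0, 2}) by decide), if_true]
        rw [e, List.length_map]
        exact C6.klen.2.2
      · have e : Ls {0, 3} = C9.Lx.map repj := by
          unfold Ls
          simp only [if_neg (show ¬ (({0, 3} : Finset (Fin 4)) = ∅) by decide), if_neg (show ¬ (({0, 3} : Finset (Fin 4)) = {0, 1}) by decide), if_neg (show ¬ (({0, 3} : Finset (Fin 4)) = {0, 2}) by decide), if_neg (show ¬ (({0, 3} : Finset (Fin 4)) = {1, 2}) by decide), if_true]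
        rw [e, List.length_map]
        exact C9.klen.2.2
      · have e : Ls {1, 3} = C10.Lx.map repj := by
          unfold Ls
          simp only [if_neg (show ¬ (({1, 3} : Finset (Fin 4)) = ∅) by decide), if_neg (show ¬ (({1, 3} : Finset (Fin 4)) = {0, 1}) by decide), if_neg (show ¬ (({1, 3} : Finset (Fin 4)) = {0, 2}) by decide), if_neg (show ¬ (({1, 3} : Finset (Fin 4)) = {1, 2}) by decide), if_neg (show ¬ (({1, 3} : Finset (Fin 4)) = {0, 3}) by decide), if_true]
        rw [e, List.length_map]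
        exact C10.klen.2.2
      · have e : Ls {2, 3} = C12.Lx.map repj := by
          unfold Ls
          simp only [if_neg (show ¬ (({2, 3} : Finset (Fin 4)) = ∅) by decide), if_neg (show ¬ (({2, 3} : Finset (Fin 4)) = {0, 1}) by decide), if_neg (show ¬ (({2, 3} : Finset (Fin 4)) = {0, 2}) by decide), if_neg (show ¬ (({2, 3} : Finset (Fin 4)) = {1, 2}) by decide), if_neg (show ¬ (({2, 3} : Finset (Fin 4)) = {0, 3}) by decide), if_neg (show ¬ (({2, 3} : Finset (Fin 4)) = {1, 3}) by decide), if_true]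
        rw [e, List.length_map]
        exact C12.klen.2.2
      · have e : Ls {0, 1, 2, 3} = C15.Lx.map repj := by
          unfold Ls
          simp only [if_neg (show ¬ (({0, 1, 2, 3} : Finset (Fin 4)) = ∅) by decide), if_neg (show ¬ (({0, 1, 2, 3} : Finset (Fin 4)) = {0, 1}) by decide), if_neg (show ¬ (({0, 1, 2, 3} : Finset (Fin 4)) = {0, 2}) by decide), if_neg (show ¬ (({0, 1, 2, 3} : Finset (Fin 4)) = {1, 2}) by decide), if_neg (show ¬ (({0, 1, 2, 3} : Finset (Fin 4)) = {0, 3}) by decide), if_neg (show ¬ (({0, 1, 2, 3} : Finset (Fin 4)) = {1, 3}) by decide), if_neg (show ¬ (({0, 1, 2, 3} : Finset (Fin 4)) = {2, 3}) by decide), if_true]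
        rw [e, List.length_map]
        exact C15.klen.2.2
    obtain ⟨l0, l3, l5, l6, l9, l10, l12, l15⟩ := l
    rw [Finset.sum_insert (by decide), Finset.sum_insert (by decide), Finset.sum_insert (by decide), Finset.sum_insert (by decide), Finset.sum_insert (by decide), Finset.sum_insert (by decide), Finset.sum_insert (by decide), Finset.sum_singleton, l0, l3, l5, l6, l9, l10, l12, l15]
    norm_num
  rw [e3] at h
  exact h

/-- **Depth four modulo three.** -/
theorem w4_le (e : ℕ) : 29952 * Module.finrank ℚ (W ℚ 4 e) ≤ 373 * (e + 3246).choose 3 := by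
  rcases Nat.even_or_odd e with he | he
  · have : Fact (Nat.Prime 3) := ⟨Nat.prime_three⟩
    have h1 := sModP 3 4 e
    have h2 := sCount3 3243 151065 sSep3.1 span3 sDim e he
    rw [sSep3.2] at h2
    have h3 : 12130560 * Module.finrank ℚ (W ℚ 4 e) ≤ 151065 * (e + 3243 + 3).choose 3 :=
      (Nat.mul_le_mul_left _ h1).trans h2
    have e1 : e + 3243 + 3 = e + 3246 := by omega
    rw [e1] at h3
    omega
  · rw [sOdd e he]
    rw [finrank_bot]
    omega

end Pool.Agent.H492.CT
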